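import Pool.Agent.Work.MP_d956f3_nt.Gal

set_option autoImplicit false

/-! # MP_d956f3_nt: the square criterion and the main lemma -/

namespace Pool.Agent.TPU

/-- `x` or its inverse -/
noncomputable def pw (a : ZMod 2) (x : Q2) : Q2 := if a = 0 then x else x⁻¹

/-- An element on which every endomorphism acts by a sign and possibly inversion. -/
structure Atom where
  v : Q2
  c : Gam → ZMod 2
  n : Gam → ZMod 2
  hv : v ≠ 0
  h : ∀ σ, σ v = sg (c σ) * pw (n σ) v

/-- the inverted part -/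
noncomputable def Atom.w (a : Atom) (σ : Gam) : Q2 := if a.n σ = 0 then 1 else a.v

theorem Atom.w_ne (a : Atom) (σ : Gam) : a.w σ ≠ 0 := by
  unfold Atom.w
  split_ifs
  · exact one_ne_zero
  · exact a.hv

theorem crit1 (L : List Atom) (σ : Gam) : σ ((L.map Atom.v).prod) * ((L.map fun a => a.w σ).prod *
    (L.map fun a => a.w σ).prod) = sg ((L.map fun a => a.c σ).sum) * (L.map Atom.v).prod := by
  induction L with
  | nil => simp [sg_zero]
  | cons a L ih =>
    simp only [List.map_cons, List.prod_cons, List.sum_cons, map_mul, sg_add]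
    have h1 : σ a.v * (a.w σ * a.w σ) = sg (a.c σ) * a.v := by
      rw [a.h σ]
      unfold pw Atom.w
      by_cases h : a.n σ = 0
      · rw [if_pos h, if_pos h, mul_one, mul_one]
      · rw [if_neg h, if_neg h]
        have := a.hv
        field_simp
    calc σ a.v * σ ((L.map Atom.v).prod) * (a.w σ * (L.map fun a => a.w σ).prod *
          (a.w σ * (L.map fun a => a.w σ).prod))
        = (σ a.v * (a.w σ * a.w σ)) * (σ ((L.map Atom.v).prod) *
          ((L.map fun a => a.w σ).prod * (L.map fun a => a.w σ).prod)) := by ring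
      _ = sg (a.c σ) * sg ((L.map fun a => a.c σ).sum) * (a.v * (L.map Atom.v).prod) := by
        rw [h1, ih]
        ring

theorem crit3 (L : List Atom) (σ : Gam) : σ ((L.map fun a => a.w σ).prod) *
    (L.map fun a => a.w σ).prod = sg ((L.map fun a => a.c σ * a.n σ).sum) := by
  induction L with
  | nil => simp [sg_zero]
  | cons a L ih =>
    simp only [List.map_cons, List.prod_cons, List.sum_cons, map_mul, sg_add]
    have h1 : σ (a.w σ) * a.w σ = sg (a.c σ * a.n σ) := by
      unfold Atom.w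
      by_cases h : a.n σ = 0
      · rw [if_pos h, h, mul_zero, sg_zero, map_one, one_mul]
      · have h2 : a.n σ = 1 := (zmod2_cases _).resolve_left h
        rw [if_neg h, h2, mul_one, a.h σ]
        unfold pw
        rw [if_neg h, mul_assoc, inv_mul_cancel₀ a.hv, mul_one]
    rw [← h1, ← ih]
    ring

theorem crit4 (L : List Atom) (σ : Gam) : (L.map fun a => a.w σ).prod ≠ 0 := by
  apply List.prod_ne_zero
  intro h
  rw [List.mem_map] at h
  obtain ⟨a, _, ha⟩ := h
  exact a.w_ne σ ha

theorem crit5 (L : List Atom) : (L.map Atom.v).prod ≠ 0 := by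
  apply List.prod_ne_zero
  intro h
  rw [List.mem_map] at h
  obtain ⟨a, _, ha⟩ := h
  exact a.hv ha

theorem coe_two : ((2 : Q2) : ℝ) = 2 := rfl

/-- The square criterion. -/
theorem criterion (L : List Atom) (y : Q2) (hy : (L.map Atom.v).prod = y * y)
    (hc : ∀ σ, (L.map fun a => a.c σ).sum = 0) (σ : Gam) :
    (L.map fun a => a.c σ * a.n σ).sum = 0 := by
  apply sg_inj
  rw [← crit3]
  set w := (L.map fun a => a.w σ).prod with hw
  have h1 := crit1 L σ
  rw [hc σ, sg_zero, one_mul, hy, map_mul] at h1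
  have hy0 : y ≠ 0 := by
    rintro rfl
    have := crit5 L
    rw [hy] at this
    simp at this
  have h2 : (σ y * w) * (σ y * w) = y * y := by
    rw [← h1]
    ring
  have key : ∀ ε : Q2, ε * ε = 1 → σ ε = ε → σ y * w = ε * y → σ w * w = 1 := by
    intro ε he hes h3
    have h4 := congrArg σ h3
    rw [map_mul, map_mul, invol, hes] at h4
    have h5 : y * (σ w * w) = y * 1 := by
      calc y * (σ w * w) = (y * σ w) * w := by ring
        _ = ε * (σ y * w) := by rw [h4]; ring
        _ = (ε * ε) * y := by rw [h3]; ring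
        _ = y * 1 := by rw [he]; ring
    exact mul_left_cancel₀ hy0 h5
  rcases mul_self_eq_mul_self_iff.1 h2 with h3 | h3
  · exact key 1 (by ring) (map_one σ) (by rw [h3, one_mul])
  · exact key (-1) (by ring) (by rw [map_neg, map_one]) (by rw [h3]; ring)

/-! ### Pell units -/

namespace PD

/-- the square root of the unit -/
noncomputable def eta (P : PD) : ℝ := (√(P.del : ℝ) + √(P.del' : ℝ)) / 2

/-- the unit -/
noncomputable def e (P : PD) : ℝ := P.x + P.y * √(P.D : ℝ)

noncomputable def etaQ (P : PD) : Q2 := (rt P.del + rt P.del') / 2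

theorem coe_etaQ (P : PD) : ((P.etaQ : Q2) : ℝ) = P.eta := by
  unfold etaQ eta
  push_cast
  rw [coe_rt, coe_rt, coe_two]

theorem sqrt_del_mul (P : PD) : √(P.del : ℝ) * √(P.del' : ℝ) = 2 * P.y * √(P.D : ℝ) := by
  rw [← Real.sqrt_mul (Nat.cast_nonneg _), ← Nat.cast_mul, P.del_mul]
  push_cast
  rw [Real.sqrt_mul (Nat.cast_nonneg _), Real.sqrt_mul_self (by positivity)]
  ring

theorem del_cast (P : PD) : (P.del : ℝ) = 2 * (P.x + 1) := by
  unfold del
  push_cast
  ring

theorem del'_cast (P : PD) : (P.del' : ℝ) = 2 * (P.x - 1) := by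
  unfold del'
  have := P.hx
  rw [Nat.cast_mul, Nat.cast_sub (by omega)]
  push_cast
  ring

theorem eta_sq (P : PD) : P.eta * P.eta = P.e := by
  unfold eta e
  have h1 : √(P.del : ℝ) * √(P.del : ℝ) = 2 * (P.x + 1) := by
    rw [Real.mul_self_sqrt (Nat.cast_nonneg _), del_cast]
  have h2 : √(P.del' : ℝ) * √(P.del' : ℝ) = 2 * (P.x - 1) := by
    rw [Real.mul_self_sqrt (Nat.cast_nonneg _), del'_cast]
  have h3 := P.sqrt_del_mul
  nlinarith

theorem h_real (P : PD) : (P.x : ℝ) ^ 2 = P.D * (P.y : ℝ) ^ 2 + 1 := by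
  exact_mod_cast P.h

theorem e_pos (P : PD) : 0 < P.e := by
  unfold e
  have := P.hx
  have h1 : (0 : ℝ) < P.x := by exact_mod_cast (by omega : 0 < P.x)
  positivity

theorem e_ne (P : PD) : P.e ≠ 0 := P.e_pos.ne'

theorem eta_ne (P : PD) : P.eta ≠ 0 := by
  intro h
  have := P.eta_sq
  rw [h, mul_zero] at this
  exact P.e_ne this.symm

theorem eta_eq (P : PD) : P.eta = √(P.del : ℝ) * ((1 + P.e) / P.del) := by
  have h1 : √(P.del : ℝ) * √(P.del : ℝ) = P.del := Real.mul_self_sqrt (Nat.cast_nonneg _)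
  have h2 := P.sqrt_del_mul
  have h3 := P.del_cast
  have h4 : (P.del : ℝ) ≠ 0 := by exact_mod_cast P.del_ne
  have h5 : √(P.del : ℝ) ≠ 0 := by
    intro h
    rw [h, mul_zero] at h1
    exact h4 h1.symm
  have h6 : √(P.del : ℝ) * P.eta = 1 + P.e := by
    unfold eta e
    have : √(P.del : ℝ) * ((√(P.del : ℝ) + √(P.del' : ℝ)) / 2) =
        (√(P.del : ℝ) * √(P.del : ℝ) + √(P.del : ℝ) * √(P.del' : ℝ)) / 2 := by ring
    rw [this, h1, h2, h3]
    ring
  rw [← h6]
  field_simp
  rw [sq, h1]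

theorem etaQ_inv (P : PD) : P.etaQ * ((rt P.del - rt P.del') / 2) = 1 := by
  apply Subtype.ext
  rw [MulMemClass.coe_mul, coe_etaQ]
  unfold eta
  push_cast
  rw [coe_rt, coe_rt, coe_two]
  have h1 : √(P.del : ℝ) * √(P.del : ℝ) = 2 * (P.x + 1) := by
    rw [Real.mul_self_sqrt (Nat.cast_nonneg _), del_cast]
  have h2 : √(P.del' : ℝ) * √(P.del' : ℝ) = 2 * (P.x - 1) := by
    rw [Real.mul_self_sqrt (Nat.cast_nonneg _), del'_cast]
  nlinarith

theorem ch_add (P : PD) (σ : Gam) : ch P.del σ + ch P.del' σ = ch P.D σ := by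
  have h2y : 2 * P.y ≠ 0 := by have := P.y_ne; omega
  rw [← ch_mul P.del_ne P.del'_ne, P.del_mul, ch_mul P.D_ne (mul_ne_zero h2y h2y),
    ch_mul_self h2y, add_zero]

/-- the atom -/
noncomputable def atom (P : PD) : Atom where
  v := P.etaQ
  c := ch P.del
  n := ch P.D
  hv := by
    intro h
    have := P.etaQ_inv
    rw [h, zero_mul] at this
    exact zero_ne_one this
  h := by
    intro σ
    have h1 : P.etaQ⁻¹ = (rt P.del - rt P.del') / 2 :=
      (eq_inv_of_mul_eq_one_right P.etaQ_inv).symm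
    have h2 : σ P.etaQ = (sg (ch P.del σ) * rt P.del + sg (ch P.del' σ) * rt P.del') / 2 := by
      unfold etaQ
      rw [map_div₀, map_add, ch_spec P.del, ch_spec P.del', map_ofNat]
    have h3 : ch P.del' σ = ch P.del σ + ch P.D σ := by
      rw [← P.ch_add, ← add_assoc, zmod2_add_self, zero_add]
    rw [h2, h3, sg_add]
    unfold pw
    rcases zmod2_cases (ch P.D σ) with h | h
    · rw [h, if_pos rfl, sg_zero]
      unfold etaQ
      ring
    · rw [h, if_neg (by decide), h1, sg_one]
      ring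

end PD

namespace ND

/-- the unit of norm `-1` -/
noncomputable def eps (N : ND) : ℝ := N.z + N.w * √(N.b : ℝ)

noncomputable def epsQ (N : ND) : Q2 := N.z + N.w * rt N.b

theorem coe_epsQ (N : ND) : ((N.epsQ : Q2) : ℝ) = N.eps := by
  unfold epsQ eps
  push_cast
  rw [coe_rt]

theorem h_real (N : ND) : (N.z : ℝ) ^ 2 + 1 = N.b * (N.w : ℝ) ^ 2 := by
  exact_mod_cast N.h

theorem eps_pos (N : ND) : 0 < N.eps := by
  unfold eps
  have h1 : (0 : ℝ) < N.w := by exact_mod_cast Nat.pos_of_ne_zero N.w_ne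
  have h2 : (0 : ℝ) < N.b := by exact_mod_cast Nat.pos_of_ne_zero N.b_ne
  have := Real.sqrt_pos.2 h2
  positivity

theorem epsQ_inv (N : ND) : N.epsQ * (N.w * rt N.b - N.z) = 1 := by
  apply Subtype.ext
  rw [MulMemClass.coe_mul, coe_epsQ]
  unfold eps
  push_cast
  rw [coe_rt]
  have h1 : √(N.b : ℝ) * √(N.b : ℝ) = N.b := Real.mul_self_sqrt (Nat.cast_nonneg _)
  have h2 := N.h_real
  calc ((N.z : ℝ) + N.w * √(N.b : ℝ)) * (N.w * √(N.b : ℝ) - N.z)
      = N.w ^ 2 * (√(N.b : ℝ) * √(N.b : ℝ)) - N.z ^ 2 := by ring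
    _ = 1 := by rw [h1]; linarith

/-- the atom -/
noncomputable def atom (N : ND) : Atom where
  v := N.epsQ
  c := ch N.b
  n := ch N.b
  hv := by
    intro h
    have := N.epsQ_inv
    rw [h, zero_mul] at this
    exact zero_ne_one this
  h := by
    intro σ
    have h1 : N.epsQ⁻¹ = N.w * rt N.b - N.z :=
      (eq_inv_of_mul_eq_one_right N.epsQ_inv).symm
    have h2 : σ N.epsQ = N.z + N.w * (sg (ch N.b σ) * rt N.b) := by
      unfold epsQ
      rw [map_add, map_mul, map_natCast, map_natCast, ch_spec N.b]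
    rw [h2]
    unfold pw
    rcases zmod2_cases (ch N.b σ) with h | h
    · rw [h, if_pos rfl, sg_zero]
      unfold epsQ
      ring
    · rw [h, if_neg (by decide), h1, sg_one]
      ring

end ND

end Pool.Agent.TPU
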