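import Pool.Agent.Work.MP_d956f3_nt.Pell

set_option autoImplicit false

/-! # MP_d956f3_nt: the Galois action on the field of all real square roots -/

namespace Pool.Agent.TPU

/-- The field generated by all the square roots of natural numbers. -/
noncomputable def Q2 : IntermediateField ℚ ℝ :=
  IntermediateField.adjoin ℚ (Set.range fun n : ℕ => √(n : ℝ))

theorem sqrt_mem (n : ℕ) : √(n : ℝ) ∈ Q2 := IntermediateField.subset_adjoin _ _ ⟨n, rfl⟩

/-- `√n` in `Q2` -/
noncomputable def rt (n : ℕ) : Q2 := ⟨√(n : ℝ), sqrt_mem n⟩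

theorem coe_rt (n : ℕ) : ((rt n : Q2) : ℝ) = √(n : ℝ) := rfl

theorem rt_mul (m n : ℕ) : rt (m * n) = rt m * rt n := by
  apply Subtype.ext
  rw [MulMemClass.coe_mul, coe_rt, coe_rt, coe_rt, Nat.cast_mul, Real.sqrt_mul (Nat.cast_nonneg m)]

theorem rt_mul_self (n : ℕ) : rt n * rt n = (n : Q2) := by
  apply Subtype.ext
  rw [MulMemClass.coe_mul, coe_rt, Real.mul_self_sqrt (Nat.cast_nonneg n)]
  simp

theorem rt_self_mul (n : ℕ) : rt (n * n) = (n : Q2) := by
  rw [rt_mul, rt_mul_self]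

theorem rt_ne {n : ℕ} (hn : n ≠ 0) : rt n ≠ 0 := by
  intro h
  have := rt_mul_self n
  rw [h, zero_mul] at this
  exact hn (by exact_mod_cast this.symm)

/-- The endomorphisms of `Q2`. -/
abbrev Gam := Q2 →ₐ[ℚ] Q2

/-- sign -/
noncomputable def sg (a : ZMod 2) : Q2 := if a = 0 then 1 else -1

theorem zmod2_cases (a : ZMod 2) : a = 0 ∨ a = 1 := by
  revert a
  decide

theorem sg_zero : sg 0 = 1 := if_pos rfl

theorem sg_one : sg 1 = -1 := if_neg (by decide)

theorem sg_add (a b : ZMod 2) : sg (a + b) = sg a * sg b := by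
  rcases zmod2_cases a with rfl | rfl <;> rcases zmod2_cases b with rfl | rfl
  · rw [add_zero, sg_zero, one_mul]
  · rw [zero_add, sg_zero, one_mul]
  · rw [add_zero, sg_zero, mul_one]
  · rw [show (1 : ZMod 2) + 1 = 0 from rfl, sg_zero, sg_one]
    norm_num

theorem sg_ne (a : ZMod 2) : sg a ≠ 0 := by
  rcases zmod2_cases a with rfl | rfl
  · rw [sg_zero]
    exact one_ne_zero
  · rw [sg_one]
    norm_num

theorem sg_inv (a : ZMod 2) : (sg a)⁻¹ = sg a := by
  rcases zmod2_cases a with rfl | rfl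
  · rw [sg_zero, inv_one]
  · rw [sg_one]
    norm_num

theorem sg_mul_self (a : ZMod 2) : sg a * sg a = 1 := by
  rw [← sg_add, zmod2_add_self, sg_zero]

theorem sg_inj {a : ZMod 2} (h : sg a = 1) : a = 0 := by
  rcases zmod2_cases a with rfl | rfl
  · rfl
  · exfalso
    rw [sg_one] at h
    have : (-1 : Q2) = 1 := h
    norm_num at this

theorem map_sg (σ : Gam) (a : ZMod 2) : σ (sg a) = sg a := by
  rcases zmod2_cases a with rfl | rfl
  · rw [sg_zero, map_one]
  · rw [sg_one, map_neg, map_one]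

open Classical in
/-- the character of `√n` -/
noncomputable def ch (n : ℕ) (σ : Gam) : ZMod 2 := if σ (rt n) = rt n then 0 else 1

theorem ch_spec (n : ℕ) (σ : Gam) : σ (rt n) = sg (ch n σ) * rt n := by
  unfold ch
  by_cases h : σ (rt n) = rt n
  · rw [if_pos h, sg_zero, one_mul, h]
  · rw [if_neg h, sg_one]
    have h1 : σ (rt n) * σ (rt n) = rt n * rt n := by
      rw [← map_mul, rt_mul_self, map_natCast]
    rcases mul_self_eq_mul_self_iff.1 h1 with h2 | h2
    · exact absurd h2 h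
    · rw [h2]
      ring

theorem ch_unique {n : ℕ} (hn : n ≠ 0) {σ : Gam} {a : ZMod 2} (h : σ (rt n) = sg a * rt n) :
    ch n σ = a := by
  rw [ch_spec] at h
  have h1 : sg (ch n σ) = sg a := mul_right_cancel₀ (rt_ne hn) h
  have h2 : sg (ch n σ + a) = 1 := by rw [sg_add, h1, sg_mul_self]
  have h3 := sg_inj h2
  have h4 : ch n σ = ch n σ + (a + a) := by rw [zmod2_add_self, add_zero]
  rw [h4, ← add_assoc, h3, zero_add]

theorem ch_mul {m n : ℕ} (hm : m ≠ 0) (hn : n ≠ 0) (σ : Gam) :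
    ch (m * n) σ = ch m σ + ch n σ := by
  apply ch_unique (mul_ne_zero hm hn)
  rw [rt_mul, map_mul, ch_spec, ch_spec, sg_add]
  ring

theorem ch_mul_self {n : ℕ} (hn : n ≠ 0) (σ : Gam) : ch (n * n) σ = 0 := by
  rw [ch_mul hn hn, zmod2_add_self]

theorem ch_one (σ : Gam) : ch 1 σ = 0 := by
  have := ch_mul_self one_ne_zero σ
  rwa [mul_one] at this

theorem ch_comp {n : ℕ} (hn : n ≠ 0) (σ τ : Gam) : ch n (σ.comp τ) = ch n σ + ch n τ := by
  apply ch_unique hn
  rw [AlgHom.comp_apply, ch_spec n τ, map_mul, map_sg, ch_spec n σ, sg_add]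
  ring

/-- the character of a square class -/
noncomputable def cv (v : ℕ →₀ ZMod 2) (σ : Gam) : ZMod 2 := v.sum fun p a => a * ch p σ

theorem cv_zero (σ : Gam) : cv 0 σ = 0 := Finsupp.sum_zero_index

theorem cv_add (v w : ℕ →₀ ZMod 2) (σ : Gam) : cv (v + w) σ = cv v σ + cv w σ := by
  unfold cv
  rw [Finsupp.sum_add_index']
  · intro p
    rw [zero_mul]
  · intro p a b
    rw [add_mul]

theorem ch_eq_cv {n : ℕ} (hn : n ≠ 0) (σ : Gam) : ch n σ = cv (sc n) σ := by
  induction n using Nat.recOnMul with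
  | zero => exact absurd rfl hn
  | one => rw [ch_one, sc_one, cv_zero]
  | prime p hp =>
    rw [sc_prime hp]
    unfold cv
    rw [Finsupp.sum_single_index (by rw [zero_mul]), one_mul]
  | mul a b ha hb =>
    have ha0 : a ≠ 0 := left_ne_zero_of_mul hn
    have hb0 : b ≠ 0 := right_ne_zero_of_mul hn
    rw [ch_mul ha0 hb0, sc_mul ha0 hb0, cv_add, ha ha0, hb hb0]

/-- induction for `Q2` -/
theorem q2_induction {p : Q2 → Prop} (h1 : ∀ n, p (rt n)) (h2 : ∀ q : ℚ, p (algebraMap ℚ Q2 q))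
    (h3 : ∀ x y, p x → p y → p (x + y)) (h4 : ∀ x, p x → p x⁻¹) (h5 : ∀ x y, p x → p y → p (x * y))
    (x : Q2) : p x := by
  obtain ⟨x, hx⟩ := x
  induction hx using IntermediateField.adjoin_induction with
  | mem x hx =>
    obtain ⟨n, rfl⟩ := hx
    exact h1 n
  | algebraMap x => exact h2 x
  | add x y hx hy hx' hy' => exact h3 ⟨x, hx⟩ ⟨y, hy⟩ hx' hy'
  | inv x hx hx' => exact h4 ⟨x, hx⟩ hx'
  | mul x y hx hy hx' hy' => exact h5 ⟨x, hx⟩ ⟨y, hy⟩ hx' hy'

/-- every endomorphism is an involution -/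
theorem invol (σ : Gam) (x : Q2) : σ (σ x) = x := by
  induction x using q2_induction with
  | h1 n => rw [ch_spec, map_mul, map_sg, ch_spec, ← mul_assoc, sg_mul_self, one_mul]
  | h2 q => rw [AlgHom.commutes, AlgHom.commutes]
  | h3 x y hx hy => rw [map_add, map_add, hx, hy]
  | h4 x hx => rw [map_inv₀, map_inv₀, hx]
  | h5 x y hx hy => rw [map_mul, map_mul, hx, hy]

/-- a nonsquare root is moved by some endomorphism -/
theorem exists_moves {n : ℕ} (hn : ¬ IsSquare n) : ∃ σ : Gam, ch n σ = 1 := by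
  have hn0 : n ≠ 0 := by
    rintro rfl
    exact hn ⟨0, rfl⟩
  have hint : ∀ m : ℕ, IsIntegral ℚ (√(m : ℝ)) := by
    intro m
    refine ⟨Polynomial.X ^ 2 - Polynomial.C (m : ℚ), Polynomial.monic_X_pow_sub_C _ two_ne_zero, ?_⟩
    simp [Real.sq_sqrt]
  have hdvd : ∀ m : ℕ, minpoly ℚ (√(m : ℝ)) ∣ Polynomial.X ^ 2 - Polynomial.C (m : ℚ) := by
    intro m
    apply minpoly.dvd
    simp [Real.sq_sqrt]
  have hsplit : ∀ s ∈ Set.range (fun n : ℕ => √(n : ℝ)), IsIntegral ℚ s ∧
      ((minpoly ℚ s).map (algebraMap ℚ ℝ)).Splits := by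
    rintro _ ⟨m, rfl⟩
    refine ⟨hint m, ?_⟩
    have h1 : (Polynomial.X ^ 2 - Polynomial.C (m : ℚ)).map (algebraMap ℚ ℝ) =
        (Polynomial.X - Polynomial.C (√(m : ℝ))) * (Polynomial.X - Polynomial.C (-√(m : ℝ))) := by
      have h2 : Polynomial.C (m : ℝ) = Polynomial.C (√(m : ℝ)) * Polynomial.C (√(m : ℝ)) := by
        rw [← Polynomial.C_mul, Real.mul_self_sqrt (Nat.cast_nonneg m)]
      rw [Polynomial.map_sub, Polynomial.map_pow, Polynomial.map_X, Polynomial.map_C, map_natCast,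
        h2, Polynomial.C_neg]
      ring
    have h3 : ((Polynomial.X ^ 2 - Polynomial.C (m : ℚ)).map (algebraMap ℚ ℝ)).Splits := by
      rw [h1]
      exact (Polynomial.Splits.X_sub_C _).mul (Polynomial.Splits.X_sub_C _)
    refine h3.of_dvd ?_ ?_
    · exact (Polynomial.Monic.map _ (Polynomial.monic_X_pow_sub_C _ two_ne_zero)).ne_zero
    · exact Polynomial.map_dvd _ (hdvd m)
  have hmin : minpoly ℚ (√(n : ℝ)) = Polynomial.X ^ 2 - Polynomial.C (n : ℚ) := by
    symm
    apply minpoly.unique' _ _ (Polynomial.monic_X_pow_sub_C _ two_ne_zero)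
    · simp [Real.sq_sqrt]
    · intro q hq
      rw [Polynomial.degree_X_pow_sub_C (by norm_num)] at hq
      by_cases hq0 : q = 0
      · exact Or.inl hq0
      right
      intro hroot
      have hdeg : q.natDegree ≤ 1 := by
        have := Polynomial.natDegree_lt_iff_degree_lt hq0 |>.2 hq
        omega
      rw [Polynomial.eq_X_add_C_of_natDegree_le_one hdeg] at hroot
      simp only [map_add, map_mul, Polynomial.aeval_C, Polynomial.aeval_X] at hroot
      have hirr : Irrational (√(n : ℝ)) := by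
        rw [irrational_sqrt_natCast_iff]
        exact hn
      by_cases hc : q.coeff 1 = 0
      · rw [hc] at hroot
        simp at hroot
        apply hq0
        rw [Polynomial.eq_X_add_C_of_natDegree_le_one hdeg, hc, hroot]
        simp
      · apply hirr
        refine ⟨-(q.coeff 0) / q.coeff 1, ?_⟩
        have hc' : ((q.coeff 1 : ℚ) : ℝ) ≠ 0 := by exact_mod_cast hc
        push_cast
        rw [div_eq_iff hc']
        have : ((q.coeff 1 : ℚ) : ℝ) * √(n : ℝ) + ((q.coeff 0 : ℚ) : ℝ) = 0 := hroot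
        linarith
  obtain ⟨φ, hφ⟩ : ∃ φ : Q2 →ₐ[ℚ] ℝ, φ (rt n) = -√(n : ℝ) :=
    IntermediateField.exists_algHom_adjoin_of_splits_of_aeval hsplit
    (x := √(n : ℝ)) (sqrt_mem n) (y := -√(n : ℝ)) (by
      rw [hmin]
      simp [Real.sq_sqrt])
  have hmem : ∀ x : Q2, φ x ∈ Q2 := by
    intro x
    induction x using q2_induction with
    | h1 m =>
      have h1 : φ (rt m) * φ (rt m) = √(m : ℝ) * √(m : ℝ) := by
        rw [← map_mul, rt_mul_self, map_natCast, Real.mul_self_sqrt (Nat.cast_nonneg m)]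
      rcases mul_self_eq_mul_self_iff.1 h1 with h2 | h2
      · rw [h2]
        exact sqrt_mem m
      · rw [h2]
        exact neg_mem (sqrt_mem m)
    | h2 q =>
      rw [AlgHom.commutes]
      exact Q2.algebraMap_mem q
    | h3 x y hx hy => rw [map_add]; exact add_mem hx hy
    | h4 x hx => rw [map_inv₀]; exact inv_mem hx
    | h5 x y hx hy => rw [map_mul]; exact mul_mem hx hy
  let σ : Gam := AlgHom.codRestrict φ Q2.toSubalgebra hmem
  refine ⟨σ, ch_unique hn0 ?_⟩
  apply Subtype.ext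
  have h1 : ((σ (rt n) : Q2) : ℝ) = φ (rt n) := rfl
  rw [h1, sg_one, neg_one_mul]
  exact hφ

theorem cv_faithful {v : ℕ →₀ ZMod 2} (hv : ∀ p, v p ≠ 0 → p.Prime) (h : ∀ σ, cv v σ = 0) :
    v = 0 := by
  by_contra hne
  have h0 := dd_ne_zero v hv
  have hns : ¬ IsSquare (dd v) := by
    intro hs
    apply hne
    rw [← sc_dd v hv]
    exact sc_of_isSquare h0 hs
  obtain ⟨σ, hσ⟩ := exists_moves hns
  rw [ch_eq_cv h0, sc_dd v hv, h σ] at hσ
  exact absurd hσ (by decide)

end Pool.Agent.TPU
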