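import Pool.Agent.Work.MP_d956f3_nt.Steps

set_option autoImplicit false

/-! # MP_d956f3_nt: subfields of `Q2` are generated by the square roots they contain -/

namespace Pool.Agent.TPU

open Polynomial

theorem isIntegral_sqrt (m : ℕ) : IsIntegral ℚ (√(m : ℝ)) := by
  refine ⟨Polynomial.X ^ 2 - Polynomial.C (m : ℚ), Polynomial.monic_X_pow_sub_C _ two_ne_zero, ?_⟩
  simp [Real.sq_sqrt]

theorem splits_sqrt (m : ℕ) : ((minpoly ℚ (√(m : ℝ))).map (algebraMap ℚ Q2)).Splits := by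
  have hdvd : minpoly ℚ (√(m : ℝ)) ∣ Polynomial.X ^ 2 - Polynomial.C (m : ℚ) := by
    apply minpoly.dvd
    simp [Real.sq_sqrt]
  have h1 : (Polynomial.X ^ 2 - Polynomial.C (m : ℚ)).map (algebraMap ℚ Q2) =
      (Polynomial.X - Polynomial.C (rt m)) * (Polynomial.X - Polynomial.C (-rt m)) := by
    have h2 : Polynomial.C (m : Q2) = Polynomial.C (rt m) * Polynomial.C (rt m) := by
      rw [← Polynomial.C_mul, rt_mul_self]
    have h3 : (algebraMap ℚ Q2) (m : ℚ) = (m : Q2) := map_natCast _ m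
    rw [Polynomial.map_sub, Polynomial.map_pow, Polynomial.map_X, Polynomial.map_C, h3, h2,
      Polynomial.C_neg]
    ring
  have h4 : ((Polynomial.X ^ 2 - Polynomial.C (m : ℚ)).map (algebraMap ℚ Q2)).Splits := by
    rw [h1]
    exact (Polynomial.Splits.X_sub_C _).mul (Polynomial.Splits.X_sub_C _)
  refine h4.of_dvd ?_ (Polynomial.map_dvd _ hdvd)
  rw [h1]
  exact mul_ne_zero (Polynomial.X_sub_C_ne_zero _) (Polynomial.X_sub_C_ne_zero _)

theorem normal_Q2 : Normal ℚ Q2 := by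
  rw [normal_iff]
  rintro ⟨x, hx⟩
  have halg : Algebra.IsAlgebraic ℚ Q2 := by
    apply IntermediateField.isAlgebraic_adjoin
    rintro _ ⟨n, rfl⟩
    exact isIntegral_sqrt n
  refine ⟨(halg.isAlgebraic _).isIntegral, ?_⟩
  have h1 : minpoly ℚ (⟨x, hx⟩ : Q2) = minpoly ℚ x := IntermediateField.minpoly_eq _
  rw [h1]
  refine IntermediateField.splits_of_mem_adjoin ℚ ℝ (S := Set.range fun n : ℕ => √(n : ℝ)) ?_ hx
  rintro _ ⟨n, rfl⟩
  exact ⟨isIntegral_sqrt n, splits_sqrt n⟩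

theorem isGalois_Q2 : IsGalois ℚ Q2 := by
  have h := normal_Q2
  exact IsGalois.mk

/-- squarefree numbers -/
abbrev SF := {n : ℕ // Squarefree n}

/-- every element of `Q2` is a rational combination of square roots of squarefree numbers -/
theorem mem_span {x : ℝ} (hx : x ∈ Q2) :
    x ∈ Submodule.span ℚ (Set.range fun n : SF => √((n : ℕ) : ℝ)) := by
  have h1 : x ∈ Algebra.adjoin ℚ (Set.range fun n : ℕ => √(n : ℝ)) := by
    rw [← IntermediateField.adjoin_toSubalgebra_of_isAlgebraic]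
    · exact hx
    · rintro _ ⟨n, rfl⟩
      exact (isIntegral_sqrt n).isAlgebraic
  have h2 : x ∈ Submodule.span ℚ
      (Submonoid.closure (Set.range fun n : ℕ => √(n : ℝ)) : Set ℝ) := by
    rw [← Algebra.adjoin_eq_span]
    exact h1
  refine Submodule.span_le.2 ?_ h2
  intro y hy
  have h3 : ∃ n : ℕ, y = √(n : ℝ) := by
    have hy' : y ∈ Submonoid.closure (Set.range fun n : ℕ => √(n : ℝ)) := hy
    refine Submonoid.closure_induction (motive := fun y _ => ∃ n : ℕ, y = √(n : ℝ)) ?_ ?_ ?_ hy'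
    · rintro _ ⟨n, rfl⟩
      exact ⟨n, rfl⟩
    · exact ⟨1, by simp⟩
    · rintro _ _ _ _ ⟨m, rfl⟩ ⟨n, rfl⟩
      exact ⟨m * n, by rw [Nat.cast_mul, Real.sqrt_mul (Nat.cast_nonneg m)]⟩
  obtain ⟨n, rfl⟩ := h3
  obtain ⟨a, b, hab, ha⟩ := Nat.sq_mul_squarefree n
  have h4 : √(n : ℝ) = (b : ℚ) • √(a : ℝ) := by
    rw [← hab, Nat.cast_mul, Nat.cast_pow, Real.sqrt_mul (by positivity),
      Real.sqrt_sq (Nat.cast_nonneg b), Rat.smul_def]
    simp
  rw [h4]
  exact Submodule.smul_mem _ _ (Submodule.subset_span ⟨⟨a, ha⟩, rfl⟩)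

/-- the characters -/
noncomputable def chi (n : ℕ) : Gam →* Q2 where
  toFun σ := sg (ch n σ)
  map_one' := by
    have h : ch n (1 : Gam) = 0 := if_pos rfl
    rw [h, sg_zero]
  map_mul' σ τ := by
    have h : ch n (σ * τ) = ch n σ + ch n τ := ch_comp' n σ τ
    rw [h, sg_add]

theorem chi_inj : Function.Injective (fun n : SF => chi (n : ℕ)) := by
  intro m n h
  apply Subtype.ext
  apply eq_of_sc m.2 n.2
  have h1 : sc (m : ℕ) + sc (n : ℕ) = 0 := by
    apply cv_faithful (PS.add_mem (sc_mem_PS _) (sc_mem_PS _))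
    intro σ
    have h2 : sg (ch (m : ℕ) σ) = sg (ch (n : ℕ) σ) := DFunLike.congr_fun h σ
    have h3 : sg (ch (m : ℕ) σ + ch (n : ℕ) σ) = 1 := by
      rw [sg_add, h2, sg_mul_self]
    have h4 := sg_inj h3
    rw [cv_add, ← ch_eq_cv m.2.ne_zero, ← ch_eq_cv n.2.ne_zero]
    exact h4
  calc sc (m : ℕ) = sc (m : ℕ) + (sc (n : ℕ) + sc (n : ℕ)) := by
        rw [w_add_self, add_zero]
    _ = sc (n : ℕ) := by rw [← add_assoc, h1, zero_add]

/-- linear independence of the roots -/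
theorem indep (S : Finset SF) (a : SF → ℚ) (h : ∑ n ∈ S, (a n : Q2) * rt (n : ℕ) = 0) :
    ∀ n ∈ S, a n = 0 := by
  have h1 : LinearIndependent Q2 (fun n : SF => (chi (n : ℕ) : Gam → Q2)) :=
    (linearIndependent_monoidHom Gam Q2).comp (fun n : SF => chi (n : ℕ)) chi_inj
  rw [linearIndependent_iff'] at h1
  have h2 := h1 S (fun n => (a n : Q2) * rt (n : ℕ)) (by
    funext σ
    rw [Finset.sum_apply, Pi.zero_apply]
    have h3 : σ (∑ n ∈ S, (a n : Q2) * rt (n : ℕ)) = 0 := by rw [h, map_zero]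
    rw [map_sum] at h3
    rw [← h3]
    apply Finset.sum_congr rfl
    intro n _
    rw [map_mul, map_ratCast, ch_spec, Pi.smul_apply, smul_eq_mul]
    change (a n : Q2) * rt (n : ℕ) * sg (ch (n : ℕ) σ) =
      (a n : Q2) * (sg (ch (n : ℕ) σ) * rt (n : ℕ))
    ring)
  intro n hn
  have h3 := h2 n hn
  rcases mul_eq_zero.1 h3 with h4 | h4
  · exact_mod_cast h4
  · exact absurd h4 (rt_ne n.2.ne_zero)

/-- A subfield of `Q2` is spanned by the square roots that it contains. -/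
theorem gen {K : IntermediateField ℚ ℝ} (hK : K ≤ Q2) {x : ℝ} (hx : x ∈ K) :
    x ∈ Submodule.span ℚ {y : ℝ | ∃ n : ℕ, Squarefree n ∧ √(n : ℝ) ∈ K ∧ y = √(n : ℝ)} := by
  obtain ⟨c, hc⟩ := Finsupp.mem_span_range_iff_exists_finsupp.1 (mem_span (hK hx))
  rw [← hc]
  apply Submodule.sum_mem
  intro n hn
  apply Submodule.smul_mem
  apply Submodule.subset_span
  refine ⟨n, n.2, ?_, rfl⟩
  have hcn : c n ≠ 0 := Finsupp.mem_support_iff.1 hn
  -- Galois theory
  have hE := @InfiniteGalois.fixedField_fixingSubgroup ℚ Q2 _ _ _ (IntermediateField.restrict hK)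
    (by convert! isGalois_Q2 using 1)
  have h1 : rt (n : ℕ) ∈ IntermediateField.restrict hK := by
    rw [← hE, IntermediateField.mem_fixedField_iff]
    intro f hf
    rw [IntermediateField.mem_fixingSubgroup_iff] at hf
    let σ : Gam := (f : Q2 →+* Q2).toRatAlgHom
    have hfx : σ ⟨x, hK hx⟩ = ⟨x, hK hx⟩ := hf ⟨x, hK hx⟩ ((IntermediateField.mem_restrict hK _).2 hx)
    have hx' : (⟨x, hK hx⟩ : Q2) = ∑ n ∈ c.support, (c n : Q2) * rt (n : ℕ) := by
      apply Subtype.ext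
      have h5 : ((∑ n ∈ c.support, (c n : Q2) * rt (n : ℕ) : Q2) : ℝ) =
          ∑ n ∈ c.support, (c n : ℝ) * √((n : ℕ) : ℝ) := by
        have h6 := map_sum (Q2.val) (fun n : SF => (c n : Q2) * rt (n : ℕ)) c.support
        have h7 : ∀ y : Q2, Q2.val y = (y : ℝ) := fun y => rfl
        rw [h7] at h6
        rw [h6]
        apply Finset.sum_congr rfl
        intro n _
        rw [map_mul, map_ratCast]
        rfl
      rw [h5]
      change x = _
      rw [← hc, Finsupp.sum]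
      apply Finset.sum_congr rfl
      intro n _
      rw [Rat.smul_def]
    have h2 : ∑ n ∈ c.support, ((c n * (if ch (n : ℕ) σ = 0 then 0 else -2) : ℚ) : Q2) *
        rt (n : ℕ) = 0 := by
      have h3 : σ (∑ n ∈ c.support, (c n : Q2) * rt (n : ℕ)) -
          ∑ n ∈ c.support, (c n : Q2) * rt (n : ℕ) = 0 := by
        rw [← hx', hfx, sub_self]
      rw [map_sum, ← Finset.sum_sub_distrib] at h3
      rw [← h3]
      apply Finset.sum_congr rfl
      intro n _
      rw [map_mul, map_ratCast, ch_spec, Rat.cast_mul]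
      rcases zmod2_cases (ch (n : ℕ) σ) with h4 | h4
      · rw [h4, if_pos rfl, sg_zero, Rat.cast_zero]
        ring
      · rw [h4, if_neg one_ne_zero, sg_one]
        push_cast
        ring
    have h3 := indep _ _ h2 n hn
    have h4 : ch (n : ℕ) σ = 0 := by
      by_contra h5
      rw [if_neg h5] at h3
      rcases mul_eq_zero.1 h3 with h6 | h6
      · exact hcn h6
      · norm_num at h6
    change σ (rt (n : ℕ)) = rt (n : ℕ)
    rw [ch_spec, h4, sg_zero, one_mul]
  exact (IntermediateField.mem_restrict hK _).1 h1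

/-- `K` is infinite over `ℚ` only if it contains infinitely many quadratic fields -/
theorem infinite_of {K : IntermediateField ℚ ℝ} (hK : K ≤ Q2) (hinf : ¬ FiniteDimensional ℚ K) :
    {n : ℕ | Squarefree n ∧ √(n : ℝ) ∈ K}.Infinite := by
  intro hfin
  apply hinf
  have h1 : ({y : ℝ | ∃ n : ℕ, Squarefree n ∧ √(n : ℝ) ∈ K ∧ y = √(n : ℝ)}).Finite := by
    apply (hfin.image fun n : ℕ => √(n : ℝ)).subset
    rintro _ ⟨n, h1, h2, rfl⟩
    exact ⟨n, ⟨h1, h2⟩, rfl⟩
  have h2 : FiniteDimensional ℚ (Submodule.span ℚ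
      {y : ℝ | ∃ n : ℕ, Squarefree n ∧ √(n : ℝ) ∈ K ∧ y = √(n : ℝ)}) :=
    FiniteDimensional.span_of_finite ℚ h1
  have h3 : Subalgebra.toSubmodule K.toSubalgebra ≤ Submodule.span ℚ
      {y : ℝ | ∃ n : ℕ, Squarefree n ∧ √(n : ℝ) ∈ K ∧ y = √(n : ℝ)} := fun x hx => gen hK hx
  exact Submodule.finiteDimensional_of_le h3

/-- no prime `3 mod 4` is ramified -/
theorem no_three {K : IntermediateField ℚ ℝ} (hK : K ≤ Q2) (hfin : FinE K)
    (hinf : ¬ FiniteDimensional ℚ K) {D : ℕ} (hD : Squarefree D) (hDK : √(D : ℝ) ∈ K) {q : ℕ}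
    (hq : q.Prime) (hqD : q ∣ D) : q % 4 ≠ 3 := by
  intro hq3
  have hs2 := step2 hK hfin
  apply infinite_of hK hinf
  have hsq : ∀ n : ℕ, Squarefree n → q ∣ n → sc n q = 1 := by
    intro n hn hqn
    rw [sc_apply]
    have h1 : n.factorization q = 1 := by
      have h2 := (Nat.squarefree_iff_factorization_le_one hn.ne_zero).1 hn q
      have h3 := (hq.dvd_iff_one_le_factorization hn.ne_zero).1 hqn
      omega
    rw [h1, Nat.cast_one]
  -- those divisible by `q`
  have hA : {n : ℕ | Squarefree n ∧ √(n : ℝ) ∈ K ∧ q ∣ n}.Finite := by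
    apply hs2.subset
    rintro n ⟨h1, h2, h3⟩
    exact ⟨h1, h2, not_neg hq hq3 h3⟩
  have hB : {n : ℕ | Squarefree n ∧ √(n : ℝ) ∈ K ∧ ¬ q ∣ n}.Finite := by
    apply Set.Finite.of_injOn (f := fun n => dd (sc n + sc D)) (t := Dset K) _ _ hs2
    · rintro n ⟨h1, h2, h3⟩
      have hv : sc n + sc D ∈ VK K :=
        (VK K).add_mem ((mem_VK h1.ne_zero).2 h2) ((mem_VK hD.ne_zero).2 hDK)
      refine ⟨squarefree_dd _ (VK_le hv), sqrt_dd_mem hv, ?_⟩
      apply not_neg hq hq3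
      apply dvd_of_sc
      rw [sc_dd _ (VK_le hv), Finsupp.add_apply, hsq D hD hqD]
      have h4 : sc n q = 0 := by
        by_contra h5
        exact h3 (dvd_of_sc h5)
      rw [h4, zero_add]
      exact one_ne_zero
    · rintro m ⟨h1, h2, h3⟩ n ⟨h4, h5, h6⟩ h7
      have hv : ∀ n : ℕ, sc n + sc D ∈ PS := fun n => PS.add_mem (sc_mem_PS _) (sc_mem_PS _)
      have h8 : dd (sc m + sc D) = dd (sc n + sc D) := h7
      have h9 := congrArg sc h8
      rw [sc_dd _ (hv m), sc_dd _ (hv n)] at h9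
      exact eq_of_sc h1 h4 (add_right_cancel h9)
  apply (hA.union hB).subset
  rintro n ⟨h1, h2⟩
  by_cases h : q ∣ n
  · exact Or.inl ⟨h1, h2, h⟩
  · exact Or.inr ⟨h1, h2, h⟩

/-- `K` lies in the field generated by `√2` and the `√p` with `p = 1 mod 4`. -/
theorem le_P1 {K : IntermediateField ℚ ℝ} (hK : K ≤ Q2) (hfin : FinE K)
    (hinf : ¬ FiniteDimensional ℚ K) :
    K ≤ IntermediateField.adjoin ℚ {x : ℝ | ∃ p : ℕ, p.Prime ∧ (p = 2 ∨ p % 4 = 1) ∧ x = √(p : ℝ)} := by
  set E := IntermediateField.adjoin ℚ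
    {x : ℝ | ∃ p : ℕ, p.Prime ∧ (p = 2 ∨ p % 4 = 1) ∧ x = √(p : ℝ)} with hE
  intro x hx
  have h1 := gen hK hx
  have h2 : Submodule.span ℚ {y : ℝ | ∃ n : ℕ, Squarefree n ∧ √(n : ℝ) ∈ K ∧ y = √(n : ℝ)} ≤
      Subalgebra.toSubmodule E.toSubalgebra := by
    rw [Submodule.span_le]
    rintro _ ⟨n, hn, hnK, rfl⟩
    have h3 : ∀ p ∈ n.primeFactorsList, √(p : ℝ) ∈ E := by
      intro p hp
      have hpp := Nat.prime_of_mem_primeFactorsList hp
      have hpn := Nat.dvd_of_mem_primeFactorsList hp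
      apply IntermediateField.subset_adjoin
      refine ⟨p, hpp, ?_, rfl⟩
      have h4 := no_three hK hfin hinf hn hnK hpp hpn
      rcases hpp.eq_two_or_odd with h5 | h5
      · exact Or.inl h5
      · right
        omega
    have h4 : ∀ l : List ℕ, (∀ p ∈ l, √(p : ℝ) ∈ E) → √((l.prod : ℕ) : ℝ) ∈ E := by
      intro l
      induction l with
      | nil =>
        intro _
        rw [List.prod_nil, Nat.cast_one, Real.sqrt_one]
        exact one_mem E
      | cons a l ih =>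
        intro h
        rw [List.prod_cons, Nat.cast_mul, Real.sqrt_mul (Nat.cast_nonneg a)]
        exact mul_mem (h a List.mem_cons_self) (ih fun p hp => h p (List.mem_cons_of_mem a hp))
    have h5 := h4 _ h3
    rw [Nat.prod_primeFactorsList hn.ne_zero] at h5
    exact h5
  exact h2 h1

end Pool.Agent.TPU
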