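import Mathlib

set_option autoImplicit false

/-! # MP_d956f3_nt: Pell equations and square classes -/

namespace Pool.Agent.TPU

/-- The square class of a natural number. -/
noncomputable def sc (n : ℕ) : ℕ →₀ ZMod 2 :=
  n.factorization.mapRange (fun k : ℕ => (k : ZMod 2)) Nat.cast_zero

theorem sc_apply (n p : ℕ) : sc n p = (n.factorization p : ZMod 2) := rfl

theorem sc_mul {m n : ℕ} (hm : m ≠ 0) (hn : n ≠ 0) : sc (m * n) = sc m + sc n := by
  ext p
  rw [Finsupp.add_apply, sc_apply, sc_apply, sc_apply, Nat.factorization_mul hm hn,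
    Finsupp.add_apply, Nat.cast_add]

theorem zmod2_add_self (a : ZMod 2) : a + a = 0 := by
  revert a
  decide

theorem w_add_self (v : ℕ →₀ ZMod 2) : v + v = 0 := by
  ext p
  exact zmod2_add_self _

theorem sc_one : sc 1 = 0 := by
  ext p
  simp [sc_apply]

theorem sc_mul_self {n : ℕ} (hn : n ≠ 0) : sc (n * n) = 0 := by
  rw [sc_mul hn hn, w_add_self]

theorem isSquare_of_sc {n : ℕ} (hn : n ≠ 0) (h : sc n = 0) : IsSquare n := by
  have h1 : ∀ p, Even (n.factorization p) := by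
    intro p
    have := DFunLike.congr_fun h p
    rw [sc_apply, Finsupp.zero_apply, ZMod.natCast_eq_zero_iff_even] at this
    exact this
  choose f hf using h1
  refine ⟨n.factorization.prod fun p _ => p ^ f p, ?_⟩
  rw [← Finsupp.prod_mul]
  conv_lhs => rw [← Nat.prod_factorization_pow_eq_self hn]
  apply Finsupp.prod_congr
  intro p _
  rw [← pow_add, ← hf p]

theorem isSquare_mul_of_sc {m n : ℕ} (hm : m ≠ 0) (hn : n ≠ 0) (h : sc m = sc n) :
    IsSquare (m * n) := by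
  apply isSquare_of_sc (mul_ne_zero hm hn)
  rw [sc_mul hm hn, h, w_add_self]

theorem sc_of_isSquare {n : ℕ} (hn : n ≠ 0) (h : IsSquare n) : sc n = 0 := by
  obtain ⟨m, rfl⟩ := h
  exact sc_mul_self (by rintro rfl; simp at hn)

theorem sc_prime {p : ℕ} (hp : p.Prime) : sc p = Finsupp.single p 1 := by
  ext q
  rw [sc_apply, hp.factorization, Finsupp.single_apply, Finsupp.single_apply]
  split_ifs <;> simp

theorem prime_of_sc {n p : ℕ} (h : sc n p ≠ 0) : p.Prime := by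
  by_contra hp
  apply h
  rw [sc_apply, Nat.factorization_eq_zero_of_not_prime n hp, Nat.cast_zero]

theorem dvd_of_sc {n p : ℕ} (h : sc n p ≠ 0) : p ∣ n := by
  by_contra hp
  apply h
  rw [sc_apply, Nat.factorization_eq_zero_of_not_dvd hp, Nat.cast_zero]

/-- The squarefree number with a given square class. -/
def dd (v : ℕ →₀ ZMod 2) : ℕ := ∏ p ∈ v.support, p

theorem fac_dd (v : ℕ →₀ ZMod 2) (hv : ∀ p, v p ≠ 0 → p.Prime) (p : ℕ) :
    (dd v).factorization p = if v p = 0 then 0 else 1 := by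
  unfold dd
  rw [Nat.factorization_prod (fun q hq => (hv q (Finsupp.mem_support_iff.1 hq)).ne_zero),
    Finsupp.finsetSum_apply]
  have h1 : ∀ q ∈ v.support, (Nat.factorization q) p = if p = q then 1 else 0 := by
    intro q hq
    rw [(hv q (Finsupp.mem_support_iff.1 hq)).factorization, Finsupp.single_apply]
    simp only [eq_comm]
  rw [Finset.sum_congr rfl h1, Finset.sum_ite_eq]
  by_cases h2 : v p = 0
  · rw [if_neg (by rw [Finsupp.mem_support_iff]; exact fun h => h h2), if_pos h2]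
  · rw [if_pos (Finsupp.mem_support_iff.2 h2), if_neg h2]

theorem dd_ne_zero (v : ℕ →₀ ZMod 2) (hv : ∀ p, v p ≠ 0 → p.Prime) : dd v ≠ 0 := by
  unfold dd
  rw [Finset.prod_ne_zero_iff]
  intro p hp
  exact (hv p (Finsupp.mem_support_iff.1 hp)).ne_zero

theorem sc_dd (v : ℕ →₀ ZMod 2) (hv : ∀ p, v p ≠ 0 → p.Prime) : sc (dd v) = v := by
  ext p
  rw [sc_apply, fac_dd v hv]
  have : ∀ a : ZMod 2, (((if a = 0 then 0 else 1 : ℕ) : ℕ) : ZMod 2) = a := by decide
  exact this _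

theorem squarefree_dd (v : ℕ →₀ ZMod 2) (hv : ∀ p, v p ≠ 0 → p.Prime) : Squarefree (dd v) := by
  rw [Nat.squarefree_iff_factorization_le_one (dd_ne_zero v hv)]
  intro p
  rw [fac_dd v hv]
  split_ifs <;> simp

theorem eq_of_sc {m n : ℕ} (hm : Squarefree m) (hn : Squarefree n) (h : sc m = sc n) : m = n := by
  apply Nat.eq_of_factorization_eq hm.ne_zero hn.ne_zero
  intro p
  have h1 := hm.natFactorization_le_one p
  have h2 := hn.natFactorization_le_one p
  have h3 := DFunLike.congr_fun h p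
  rw [sc_apply, sc_apply] at h3
  interval_cases h4 : m.factorization p <;> interval_cases h5 : n.factorization p <;> simp_all

/-- Divisibility in a Pell type equation. -/
theorem pell_div {D a m y : ℕ} (hD : Squarefree D) (ha : a ≠ 0) (h : a ^ 2 * m = D * y ^ 2) :
    ∃ r, m = D * r ^ 2 := by
  have hg : 0 < Nat.gcd a y := Nat.gcd_pos_of_pos_left y (Nat.pos_of_ne_zero ha)
  obtain ⟨a', y', hcop, ha', hy'⟩ := Nat.exists_coprime a y
  set g := Nat.gcd a y with hgdef
  have h1 : a' ^ 2 * m = D * y' ^ 2 := by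
    have h2 : g ^ 2 * (a' ^ 2 * m) = g ^ 2 * (D * y' ^ 2) := by
      have : (a' * g) ^ 2 * m = D * (y' * g) ^ 2 := by rw [← ha', ← hy']; exact h
      linarith [this]
    exact Nat.eq_of_mul_eq_mul_left (pow_pos hg 2) h2
  have h3 : a' ^ 2 ∣ D := by
    have : a' ^ 2 ∣ D * y' ^ 2 := ⟨m, h1.symm⟩
    exact (Nat.Coprime.pow 2 2 hcop).dvd_of_dvd_mul_right this
  have h4 : a' = 1 := by
    have := hD a' (by rw [← sq]; exact h3)
    exact Nat.isUnit_iff.1 this
  refine ⟨y', ?_⟩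
  rw [h4] at h1
  linarith

/-- Data of a solution of the Pell equation. -/
structure PD where
  D : ℕ
  x : ℕ
  y : ℕ
  hx : 1 < x
  h : x ^ 2 = D * y ^ 2 + 1

namespace PD

/-- `2 (x + 1)` -/
def del (P : PD) : ℕ := 2 * (P.x + 1)

/-- `2 (x - 1)` -/
def del' (P : PD) : ℕ := 2 * (P.x - 1)

theorem y_ne (P : PD) : P.y ≠ 0 := by
  intro h0
  have h1 := P.h
  rw [h0] at h1
  have h2 := P.hx
  nlinarith

theorem D_ne (P : PD) : P.D ≠ 0 := by
  intro h0
  have h1 := P.h
  rw [h0] at h1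
  have h2 := P.hx
  nlinarith

theorem del_ne (P : PD) : P.del ≠ 0 := by unfold del; omega

theorem del'_ne (P : PD) : P.del' ≠ 0 := by
  have := P.hx
  unfold del'
  omega

theorem del_mul (P : PD) : P.del * P.del' = P.D * ((2 * P.y) * (2 * P.y)) := by
  have h1 := P.h
  have h2 := P.hx
  obtain ⟨k, hk⟩ : ∃ k, P.x = k + 1 := ⟨P.x - 1, by omega⟩
  unfold del del'
  rw [hk] at h1 ⊢
  rw [Nat.add_sub_cancel]
  nlinarith

theorem sc_add (P : PD) : sc P.del + sc P.del' = sc P.D := by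
  have h2y : 2 * P.y ≠ 0 := by have := P.y_ne; omega
  rw [← sc_mul P.del_ne P.del'_ne, P.del_mul, sc_mul P.D_ne (mul_ne_zero h2y h2y), sc_mul_self h2y,
    add_zero]

/-- Disjoint supports for `D = 1 mod 4`. -/
theorem disj (P : PD) (hD : P.D % 4 = 1) (p : ℕ) : sc P.del p = 0 ∨ sc P.del' p = 0 := by
  have h1 := P.h
  have h2 := P.hx
  -- y is even and x is odd
  have hyx : P.x % 2 = 1 := by
    rcases Nat.mod_two_eq_zero_or_one P.x with hx0 | hx1
    · exfalso
      obtain ⟨k, hk⟩ : ∃ k, P.x = 2 * k := ⟨P.x / 2, by omega⟩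
      obtain ⟨d, hd⟩ : ∃ d, P.D = 4 * d + 1 := ⟨P.D / 4, by omega⟩
      rcases Nat.mod_two_eq_zero_or_one P.y with hy0 | hy1
      · obtain ⟨j, hj⟩ : ∃ j, P.y = 2 * j := ⟨P.y / 2, by omega⟩
        rw [hk, hj] at h1
        have : (2 * k) ^ 2 = 4 * (k ^ 2) := by ring
        have h4 : P.D * (2 * j) ^ 2 = 4 * (P.D * j ^ 2) := by ring
        omega
      · obtain ⟨j, hj⟩ : ∃ j, P.y = 2 * j + 1 := ⟨P.y / 2, by omega⟩
        rw [hk, hj, hd] at h1
        have : (2 * k) ^ 2 = 4 * (k ^ 2) := by ring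
        have h4 : (4 * d + 1) * (2 * j + 1) ^ 2 = 4 * (d * (2 * j + 1) ^ 2 + j ^ 2 + j) + 1 := by
          ring
        omega
    · exact hx1
  obtain ⟨k, hk⟩ : ∃ k, P.x = 2 * k + 1 := ⟨P.x / 2, by omega⟩
  have hk0 : k ≠ 0 := by omega
  have e1 : P.del = 2 * 2 * (k + 1) := by unfold del; omega
  have e2 : P.del' = 2 * 2 * k := by unfold del'; omega
  by_contra hcon
  push Not at hcon
  obtain ⟨c1, c2⟩ := hcon
  rw [e1, sc_mul (by norm_num) (by omega), sc_mul_self two_ne_zero, zero_add] at c1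
  rw [e2, sc_mul (by norm_num) hk0, sc_mul_self two_ne_zero, zero_add] at c2
  have d1 := dvd_of_sc c1
  have d2 := dvd_of_sc c2
  have d3 : p ∣ 1 := by
    have := Nat.dvd_sub d1 d2
    rwa [Nat.add_sub_cancel_left] at this
  exact (prime_of_sc c2).one_lt.ne' (Nat.dvd_one.1 d3)

end PD

/-- Data of a solution of the negative Pell equation. -/
structure ND where
  b : ℕ
  z : ℕ
  w : ℕ
  h : z ^ 2 + 1 = b * w ^ 2

namespace ND

theorem w_ne (N : ND) : N.w ≠ 0 := by
  intro h0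
  have := N.h
  rw [h0] at this
  simp at this

theorem b_ne (N : ND) : N.b ≠ 0 := by
  intro h0
  have := N.h
  rw [h0] at this
  simp at this

end ND

/-- The negative Pell equation is solvable. -/
def Neg (D : ℕ) : Prop := ∃ x y : ℤ, x ^ 2 - D * y ^ 2 = -1

theorem Neg.nd {D : ℕ} (h : Neg D) : ∃ N : ND, N.b = D := by
  obtain ⟨x, y, hxy⟩ := h
  refine ⟨⟨D, x.natAbs, y.natAbs, ?_⟩, rfl⟩
  have h1 : ((x.natAbs : ℤ)) ^ 2 = x ^ 2 := by rw [Int.natCast_natAbs, sq_abs]
  have h2 : ((y.natAbs : ℤ)) ^ 2 = y ^ 2 := by rw [Int.natCast_natAbs, sq_abs]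
  zify
  rw [sq_abs, sq_abs]
  linarith

theorem ND.neg (N : ND) : Neg N.b := by
  refine ⟨N.z, N.w, ?_⟩
  have := N.h
  zify at this
  linarith

/-- The minimal solution. -/
theorem exists_PD {D : ℕ} (hD : Squarefree D) (hD1 : D ≠ 1) (hneg : ¬ Neg D) :
    ∃ P : PD, P.D = D ∧ sc P.del ≠ 0 ∧ sc P.del' ≠ 0 := by
  classical
  have hD0 : D ≠ 0 := hD.ne_zero
  have hsq : ¬ IsSquare (D : ℤ) := by
    rintro ⟨r, hr⟩
    have h1 : D = r.natAbs * r.natAbs := by
      zify
      rw [hr, abs_mul_abs_self]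
    have h2 := hD r.natAbs ⟨1, by rw [mul_one]; exact h1⟩
    rw [Nat.isUnit_iff] at h2
    rw [h2] at h1
    exact hD1 (by simpa using h1)
  have hex : ∃ x : ℕ, 1 < x ∧ ∃ y : ℕ, x ^ 2 = D * y ^ 2 + 1 := by
    obtain ⟨x, y, hxy, hy⟩ := Pell.exists_of_not_isSquare
      (show (0 : ℤ) < D by exact_mod_cast Nat.pos_of_ne_zero hD0) hsq
    have e : x.natAbs ^ 2 = D * y.natAbs ^ 2 + 1 := by
      zify
      rw [sq_abs, sq_abs]
      linarith
    refine ⟨x.natAbs, ?_, y.natAbs, e⟩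
    have hy' : 0 < y.natAbs := Int.natAbs_pos.2 hy
    have h3 : 1 ≤ D * y.natAbs ^ 2 := Nat.mul_pos (Nat.pos_of_ne_zero hD0) (pow_pos hy' 2)
    by_contra hcon
    have h4 : x.natAbs ≤ 1 := by omega
    have h5 : x.natAbs ^ 2 ≤ 1 ^ 2 := Nat.pow_le_pow_left h4 2
    omega
  obtain ⟨hx1, y, hy⟩ := Nat.find_spec hex
  set x := Nat.find hex with hxdef
  have hmin : ∀ t : ℕ, t < x → 1 < t → ∀ r, t ^ 2 ≠ D * r ^ 2 + 1 := by
    intro t ht ht1 r hr
    exact Nat.find_min hex ht ⟨ht1, r, hr⟩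
  let P : PD := ⟨D, x, y, hx1, hy⟩
  have key : ∀ t : ℕ, t ≠ 0 → ∀ m, (2 * t) ^ 2 * m = D * y ^ 2 → ∃ r, m = D * r ^ 2 := by
    intro t ht m hm
    exact pell_div hD (by omega) hm
  refine ⟨P, rfl, ?_, ?_⟩
  · intro h0
    obtain ⟨s, hs⟩ := isSquare_of_sc P.del_ne h0
    have hs' : 2 * (x + 1) = s * s := hs
    obtain ⟨t, ht⟩ : ∃ t, s = 2 * t := by
      have : Even (s * s) := ⟨x + 1, by omega⟩
      rw [Nat.even_mul, or_self] at this
      obtain ⟨t, ht⟩ := this
      exact ⟨t, by omega⟩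
    have e1 : x + 1 = 2 * t ^ 2 := by
      rw [ht] at hs'
      nlinarith
    have ht0 : t ≠ 0 := by
      rintro rfl
      simp at e1
    have ht1 : 1 < t := by
      by_contra hcon
      have : t = 1 := by omega
      rw [this] at e1
      omega
    obtain ⟨k, hk⟩ : ∃ k, t ^ 2 = k + 1 := ⟨t ^ 2 - 1, by have := Nat.pos_of_ne_zero (pow_ne_zero 2 ht0); omega⟩
    have e2 : x = 2 * k + 1 := by omega
    have e3 : (2 * t) ^ 2 * k = D * y ^ 2 := by
      have e4 : (2 * t) ^ 2 = 4 * (k + 1) := by rw [mul_pow, hk]; ring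
      rw [e4]
      have e5 := hy
      rw [e2] at e5
      nlinarith
    obtain ⟨r, hr⟩ := key t ht0 k e3
    refine hmin t ?_ ht1 r (by rw [hk, hr])
    nlinarith
  · intro h0
    obtain ⟨s, hs⟩ := isSquare_of_sc P.del'_ne h0
    have hs' : 2 * (x - 1) = s * s := hs
    obtain ⟨t, ht⟩ : ∃ t, s = 2 * t := by
      have : Even (s * s) := ⟨x - 1, by omega⟩
      rw [Nat.even_mul, or_self] at this
      obtain ⟨t, ht⟩ := this
      exact ⟨t, by omega⟩
    have e1 : x = 2 * t ^ 2 + 1 := by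
      have e0 : x - 1 = 2 * t ^ 2 := by
        rw [ht] at hs'
        nlinarith
      omega
    have ht0 : t ≠ 0 := by
      rintro rfl
      simp at e1
      omega
    have e3 : (2 * t) ^ 2 * (t ^ 2 + 1) = D * y ^ 2 := by
      have e5 := hy
      rw [e1] at e5
      nlinarith
    obtain ⟨r, hr⟩ := key t ht0 _ e3
    apply hneg
    refine ⟨t, r, ?_⟩
    zify at hr
    linarith

/-- A prime 3 mod 4 excludes the negative Pell equation. -/
theorem not_neg {D p : ℕ} (hp : p.Prime) (hp3 : p % 4 = 3) (hd : p ∣ D) : ¬ Neg D := by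
  rintro ⟨x, y, hxy⟩
  have := Fact.mk hp
  have h1 : (x : ZMod p) ^ 2 = -1 := by
    have h2 := congrArg (Int.cast : ℤ → ZMod p) hxy
    push_cast at h2
    rw [(ZMod.natCast_eq_zero_iff D p).2 hd, zero_mul, sub_zero] at h2
    exact h2
  exact ZMod.mod_four_ne_three_of_sq_eq_neg_one h1 hp3

end Pool.Agent.TPU
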