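import Pool.Agent.Work.MP_d956f3_nt.Units

set_option autoImplicit false

/-! # MP_d956f3_nt: linear algebra of square classes -/

namespace Pool.Agent.TPU

/-- square classes -/
abbrev SC := ℕ →₀ ZMod 2

/-- the pivots of a subspace -/
def piv (M : Submodule (ZMod 2) SC) : Set ℕ := {p | ∃ m ∈ M, m p ≠ 0 ∧ ∀ q, p < q → m q = 0}

theorem piv_zero (M : Submodule (ZMod 2) SC) (m : SC) (hm : m ∈ M) (h : ∀ p ∈ piv M, m p = 0) :
    m = 0 := by
  by_contra hne
  have hs : m.support.Nonempty := Finsupp.support_nonempty_iff.2 hne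
  have h1 : m.support.max' hs ∈ m.support := Finset.max'_mem _ hs
  have h2 : m (m.support.max' hs) ≠ 0 := Finsupp.mem_support_iff.1 h1
  apply h2
  apply h
  refine ⟨m, hm, h2, fun q hq => ?_⟩
  by_contra hq0
  exact absurd (Finset.le_max' _ _ (Finsupp.mem_support_iff.2 hq0)) (not_le.2 hq)

theorem eq_of_piv (M : Submodule (ZMod 2) SC) (m m' : SC) (hm : m ∈ M) (hm' : m' ∈ M)
    (h : ∀ p ∈ piv M, m p = m' p) : m = m' := by
  have h1 := piv_zero M (m + m') (M.add_mem hm hm') (fun p hp => by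
    rw [Finsupp.add_apply, h p hp, zmod2_add_self])
  calc m = m + (m' + m') := by rw [w_add_self, add_zero]
    _ = m' := by rw [← add_assoc, h1, zero_add]

theorem exists_pivot (M : Submodule (ZMod 2) SC) : ∀ p ∈ piv M, ∃ g ∈ M, g p = 1 ∧
    (∀ q, p < q → g q = 0) ∧ ∀ q ∈ piv M, q ≠ p → g q = 0 := by
  classical
  intro p
  induction p using Nat.strong_induction_on with
  | _ p ih =>
    intro hp
    obtain ⟨m, hm, hmp, hmq⟩ := hp
    have ih' : ∀ q : ℕ, ∃ g : SC, q < p → q ∈ piv M → g ∈ M ∧ g q = 1 ∧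
        (∀ r, q < r → g r = 0) ∧ ∀ r ∈ piv M, r ≠ q → g r = 0 := by
      intro q
      by_cases h : q < p ∧ q ∈ piv M
      · obtain ⟨g, h1, h2, h3, h4⟩ := ih q h.1 h.2
        exact ⟨g, fun _ _ => ⟨h1, h2, h3, h4⟩⟩
      · exact ⟨0, fun h1 h2 => absurd ⟨h1, h2⟩ h⟩
    choose G hG using ih'
    set S : Finset ℕ := (Finset.range p).filter fun q => q ∈ piv M with hS
    have hSm : ∀ q ∈ S, q < p ∧ q ∈ piv M := fun q hq =>
      ⟨Finset.mem_range.1 (Finset.mem_filter.1 hq).1, (Finset.mem_filter.1 hq).2⟩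
    have happ : ∀ r, (m + ∑ q ∈ S, m q • G q) r = m r + ∑ q ∈ S, m q * G q r := by
      intro r
      rw [Finsupp.add_apply, Finsupp.finsetSum_apply]
      rfl
    refine ⟨m + ∑ q ∈ S, m q • G q, ?_, ?_, ?_, ?_⟩
    · apply M.add_mem hm
      apply M.sum_mem
      intro q hq
      exact M.smul_mem _ (hG q (hSm q hq).1 (hSm q hq).2).1
    · rw [happ, Finset.sum_eq_zero, add_zero]
      · exact (zmod2_cases _).resolve_left hmp
      · intro q hq
        rw [(hG q (hSm q hq).1 (hSm q hq).2).2.2.1 p (hSm q hq).1, mul_zero]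
    · intro r hr
      rw [happ, hmq r hr, Finset.sum_eq_zero, add_zero]
      intro q hq
      rw [(hG q (hSm q hq).1 (hSm q hq).2).2.2.1 r ((hSm q hq).1.trans hr), mul_zero]
    · intro r hr hrp
      rw [happ]
      rcases lt_or_gt_of_ne hrp with h | h
      · have hrS : r ∈ S := Finset.mem_filter.2 ⟨Finset.mem_range.2 h, hr⟩
        rw [Finset.sum_eq_single_of_mem r hrS]
        · rw [(hG r h hr).2.1, mul_one, zmod2_add_self]
        · intro q hq hqr
          rw [(hG q (hSm q hq).1 (hSm q hq).2).2.2.2 r hr hqr.symm, mul_zero]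
      · rw [hmq r h, Finset.sum_eq_zero, add_zero]
        intro q hq
        rw [(hG q (hSm q hq).1 (hSm q hq).2).2.2.1 r ((hSm q hq).1.trans h), mul_zero]

/-- supported on primes -/
def PS : Submodule (ZMod 2) SC where
  carrier := {v | ∀ p, v p ≠ 0 → p.Prime}
  zero_mem' := fun p h => absurd rfl h
  add_mem' := by
    intro a b ha hb p hp
    by_cases h : a p = 0
    · apply hb p
      intro h'
      apply hp
      rw [Finsupp.add_apply, h, h', add_zero]
    · exact ha p h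
  smul_mem' := by
    intro c a ha p hp
    apply ha p
    intro h
    apply hp
    rw [Finsupp.smul_apply, h, smul_zero]

theorem sc_mem_PS (n : ℕ) : sc n ∈ PS := fun _ h => prime_of_sc h

theorem ch_comp' (n : ℕ) (σ τ : Gam) : ch n (σ.comp τ) = ch n σ + ch n τ := by
  by_cases hn : n = 0
  · subst hn
    have h1 : ∀ σ : Gam, ch 0 σ = 0 := by
      intro σ
      have h2 : rt 0 = 0 := by
        apply Subtype.ext
        rw [coe_rt]
        simp
      unfold ch
      rw [if_pos]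
      rw [h2, map_zero]
    rw [h1, h1, h1, add_zero]
  · exact ch_comp hn σ τ

theorem cv_comp (v : SC) (σ τ : Gam) : cv v (σ.comp τ) = cv v σ + cv v τ := by
  unfold cv
  rw [← Finsupp.sum_add]
  apply Finsupp.sum_congr
  intro p _
  rw [ch_comp', mul_add]

theorem cv_one {v : SC} (hv : v ∈ PS) (h0 : v ≠ 0) : ∃ σ, cv v σ = 1 := by
  by_contra hcon
  push Not at hcon
  apply h0
  apply cv_faithful hv
  intro σ
  exact (zmod2_cases _).resolve_right (hcon σ)

theorem both_one {v w : SC} (hv : v ∈ PS) (hw : w ∈ PS) (hv0 : v ≠ 0) (hw0 : w ≠ 0) :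
    ∃ σ, cv v σ = 1 ∧ cv w σ = 1 := by
  obtain ⟨σ, hσ⟩ := cv_one hv hv0
  obtain ⟨τ, hτ⟩ := cv_one hw hw0
  rcases zmod2_cases (cv w σ) with h1 | h1
  · rcases zmod2_cases (cv v τ) with h2 | h2
    · refine ⟨σ.comp τ, ?_, ?_⟩
      · rw [cv_comp, hσ, h2, add_zero]
      · rw [cv_comp, hτ, h1, zero_add]
    · exact ⟨τ, h2, hτ⟩
  · exact ⟨σ, hσ, h1⟩

theorem polar {v v' w w' : SC} (hv : v ∈ PS) (hv' : v' ∈ PS) (h0 : v ≠ 0) (h0' : v' ≠ 0)
    (h : ∀ σ, cv v σ * cv v' σ = cv w σ * cv w' σ) (σ : Gam) : cv (v + v') σ = cv (w + w') σ := by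
  obtain ⟨τ, h1, h2⟩ := both_one hv hv' h0 h0'
  have h3 := h τ
  have h4 := h σ
  have h5 := h (σ.comp τ)
  rw [cv_comp, cv_comp, cv_comp, cv_comp] at h5
  rw [cv_add, cv_add]
  rw [h1, h2] at h3 h5
  have key : ∀ a a' b b' c c' : ZMod 2, 1 * 1 = c * c' → a * a' = b * b' →
      (a + 1) * (a' + 1) = (b + c) * (b' + c') → a + a' = b + b' := by decide
  exact key _ _ _ _ _ _ h3 h4 h5

theorem finite_span {W : Type} [AddCommGroup W] [Module (ZMod 2) W] (s : Set W) (hs : s.Finite) :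
    ((Submodule.span (ZMod 2) s : Submodule (ZMod 2) W) : Set W).Finite := by
  have : Finite s := hs
  have h1 : Module.Finite (ZMod 2) (Submodule.span (ZMod 2) s) :=
    Module.Finite.span_of_finite (ZMod 2) hs
  have h2 : Finite (Submodule.span (ZMod 2) s) := Module.finite_of_finite (ZMod 2)
  exact Set.toFinite _

end Pool.Agent.TPU
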