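import Pool.Agent.Work.MP_d956f3_nt.Pivot

set_option autoImplicit false

/-! # MP_d956f3_nt: finiteness of the set of positive Pell discriminants -/

namespace Pool.Agent.TPU

variable {K : IntermediateField ℚ ℝ}

/-- square classes of the numbers with a root in `K` -/
def VK (K : IntermediateField ℚ ℝ) : Submodule (ZMod 2) SC where
  carrier := {v | ∃ n : ℕ, n ≠ 0 ∧ √(n : ℝ) ∈ K ∧ sc n = v}
  zero_mem' := ⟨1, one_ne_zero, by
    rw [Nat.cast_one, Real.sqrt_one]
    exact one_mem K, sc_one⟩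
  add_mem' := by
    rintro _ _ ⟨m, hm, hm', rfl⟩ ⟨n, hn, hn', rfl⟩
    refine ⟨m * n, mul_ne_zero hm hn, ?_, sc_mul hm hn⟩
    rw [Nat.cast_mul, Real.sqrt_mul (Nat.cast_nonneg m)]
    exact mul_mem hm' hn'
  smul_mem' := by
    rintro c _ ⟨m, hm, hm', rfl⟩
    rcases zmod2_cases c with rfl | rfl
    · rw [zero_smul]
      exact ⟨1, one_ne_zero, by
        rw [Nat.cast_one, Real.sqrt_one]
        exact one_mem K, sc_one⟩
    · rw [one_smul]
      exact ⟨m, hm, hm', rfl⟩

theorem sqrt_mem_of_sc {m n : ℕ} (hm : m ≠ 0) (hn : n ≠ 0) (h : sc m = sc n)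
    (hK : √(n : ℝ) ∈ K) : √(m : ℝ) ∈ K := by
  obtain ⟨s, hs⟩ := isSquare_mul_of_sc hm hn h
  have h1 : √(m : ℝ) * √(n : ℝ) = s := by
    rw [← Real.sqrt_mul (Nat.cast_nonneg m), ← Nat.cast_mul, hs, Nat.cast_mul,
      Real.sqrt_mul_self (Nat.cast_nonneg s)]
  have h2 : √(n : ℝ) ≠ 0 := by
    have : (0 : ℝ) < n := by exact_mod_cast Nat.pos_of_ne_zero hn
    exact (Real.sqrt_pos.2 this).ne'
  have h3 : √(m : ℝ) = s * (√(n : ℝ))⁻¹ := by
    rw [← h1, mul_assoc, mul_inv_cancel₀ h2, mul_one]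
  rw [h3]
  exact mul_mem (natCast_mem K s) (inv_mem hK)

theorem mem_VK {n : ℕ} (hn : n ≠ 0) : sc n ∈ VK K ↔ √(n : ℝ) ∈ K := by
  constructor
  · rintro ⟨m, hm, hm', h⟩
    exact sqrt_mem_of_sc hn hm h.symm hm'
  · intro h
    exact ⟨n, hn, h, rfl⟩

theorem VK_le : VK K ≤ PS := by
  rintro _ ⟨n, _, _, rfl⟩
  exact sc_mem_PS n

theorem sqrt_dd_mem {v : SC} (hv : v ∈ VK K) : √(dd v : ℝ) ∈ K := by
  rw [← mem_VK (dd_ne_zero v (VK_le hv)), sc_dd v (VK_le hv)]
  exact hv

/-- square classes generated by solvable negative Pell equations -/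
noncomputable def NK (K : IntermediateField ℚ ℝ) : Submodule (ZMod 2) SC where
  carrier := {v | ∃ S : List ND, (∀ N ∈ S, √(N.b : ℝ) ∈ K) ∧ (S.map fun N => sc N.b).sum = v}
  zero_mem' := ⟨[], by simp, by simp⟩
  add_mem' := by
    rintro _ _ ⟨S, hS, rfl⟩ ⟨S', hS', rfl⟩
    refine ⟨S ++ S', ?_, by rw [List.map_append, List.sum_append]⟩
    intro N hN
    rcases List.mem_append.1 hN with h | h
    · exact hS N h
    · exact hS' N h
  smul_mem' := by
    rintro c _ ⟨S, hS, rfl⟩
    rcases zmod2_cases c with rfl | rfl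
    · exact ⟨[], by simp, by simp⟩
    · exact ⟨S, hS, by rw [one_smul]⟩

/-- the set of discriminants -/
def Dset (K : IntermediateField ℚ ℝ) : Set ℕ := {D | Squarefree D ∧ √(D : ℝ) ∈ K ∧ ¬ Neg D}

theorem neg_one : Neg 1 := ⟨0, 1, by norm_num⟩

theorem exists_pd (D : Dset K) : ∃ P : PD, P.D = D ∧ sc P.del ≠ 0 ∧ sc P.del' ≠ 0 :=
  exists_PD D.2.1 (fun h => D.2.2.2 (by rw [h]; exact neg_one)) D.2.2.2

/-- the chosen solution -/
noncomputable def pd (D : Dset K) : PD := (exists_pd D).choose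

theorem pd_D (D : Dset K) : (pd D).D = D := (exists_pd D).choose_spec.1

theorem pd_del (D : Dset K) : sc (pd D).del ≠ 0 := (exists_pd D).choose_spec.2.1

theorem pd_del' (D : Dset K) : sc (pd D).del' ≠ 0 := (exists_pd D).choose_spec.2.2

/-- everything -/
noncomputable def MK (K : IntermediateField ℚ ℝ) : Submodule (ZMod 2) SC :=
  VK K ⊔ Submodule.span (ZMod 2) (Set.range fun D : Dset K => sc (pd D).del)

theorem VK_le_MK : VK K ≤ MK K := le_sup_left

theorem MK_le : MK K ≤ PS := by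
  apply sup_le VK_le
  rw [Submodule.span_le]
  rintro _ ⟨D, rfl⟩
  exact sc_mem_PS _

theorem del_mem (D : Dset K) : sc (pd D).del ∈ MK K :=
  (le_sup_right : _ ≤ MK K) (Submodule.subset_span ⟨D, rfl⟩)

theorem scD_mem (D : Dset K) : sc (pd D).D ∈ VK K := by
  rw [mem_VK (pd D).D_ne, pd_D]
  exact D.2.2.1

theorem del'_mem (D : Dset K) : sc (pd D).del' ∈ MK K := by
  have h : sc (pd D).del' = sc (pd D).del + sc (pd D).D := by
    rw [← (pd D).sc_add, ← add_assoc, w_add_self, zero_add]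
  rw [h]
  exact (MK K).add_mem (del_mem D) (VK_le_MK (scD_mem D))

/-- Step 0 -/
theorem step0 (hfin : FinE K) :
    (Set.range fun D : Dset K => (VK K).mkQ (sc (pd D).del)).Finite := by
  by_contra hinf
  have hinf' : Infinite (Set.range fun D : Dset K => (VK K).mkQ (sc (pd D).del)) :=
    Set.infinite_coe_iff.2 hinf
  choose D hD using fun x : Set.range fun D : Dset K => (VK K).mkQ (sc (pd D).del) => x.2
  have hKD : ∀ i, √((pd (D i)).D : ℝ) ∈ K := fun i => by
    rw [pd_D]
    exact (D i).2.2.1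
  obtain ⟨i, j, hij, y, hy, hyy⟩ := pigeon hfin (fun i => (pd (D i)).e)
    (fun i => by
      apply Pos.quad (hKD i)
      have := (pd (D i)).h
      omega)
    (fun i => (pd (D i)).e_ne)
    (fun i => by
      have h := (pd (D i)).int_eta
      rw [← (pd (D i)).eta_sq, mul_inv]
      exact ⟨h.1.mul h.1, h.2.mul h.2⟩)
  apply hij
  apply Subtype.ext
  rw [← hD i, ← hD j]
  change (VK K).mkQ (sc (pd (D i)).del) = (VK K).mkQ (sc (pd (D j)).del)
  rw [Submodule.mkQ_apply, Submodule.mkQ_apply, Submodule.Quotient.eq]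
  set P := pd (D i) with hP
  set Q := pd (D j) with hQ
  have h1 : sc P.del - sc Q.del = sc (P.del * Q.del) := by
    rw [sc_mul P.del_ne Q.del_ne, sub_eq_add_neg]
    congr 1
    rw [neg_eq_iff_add_eq_zero]
    exact w_add_self _
  rw [h1, mem_VK (mul_ne_zero P.del_ne Q.del_ne), Nat.cast_mul, Real.sqrt_mul (Nat.cast_nonneg _)]
  -- the product of the roots
  have h2 : P.eta * Q.eta ∈ K := by
    have h3 : (P.eta * Q.eta) * (P.eta * Q.eta) = y * y := by
      have h4 : P.e * Q.e = y * y := hyy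
      rw [← h4, ← P.eta_sq, ← Q.eta_sq]
      ring
    rcases mul_self_eq_mul_self_iff.1 h3 with h | h
    · rw [h]
      exact hy
    · rw [h]
      exact neg_mem hy
  have hc : ∀ P : PD, √(P.D : ℝ) ∈ K → (1 + P.e) / P.del ∈ K ∧ (1 + P.e) / P.del ≠ 0 := by
    intro P hPK
    have h5 : P.e ∈ K := add_mem (natCast_mem K _) (mul_mem (natCast_mem K _) hPK)
    refine ⟨div_mem (add_mem (one_mem K) h5) (natCast_mem K _), ?_⟩
    have h6 : (P.del : ℝ) ≠ 0 := by exact_mod_cast P.del_ne
    have h7 := P.e_pos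
    apply div_ne_zero _ h6
    linarith
  obtain ⟨a1, a2⟩ := hc P (hKD i)
  obtain ⟨b1, b2⟩ := hc Q (hKD j)
  have h8 : √(P.del : ℝ) * √(Q.del : ℝ) =
      P.eta * Q.eta * (((1 + P.e) / P.del)⁻¹ * ((1 + Q.e) / Q.del)⁻¹) := by
    rw [P.eta_eq, Q.eta_eq]
    calc √(P.del : ℝ) * √(Q.del : ℝ) = √(P.del : ℝ) * √(Q.del : ℝ) *
          (((1 + P.e) / P.del) * ((1 + P.e) / P.del)⁻¹) *
          (((1 + Q.e) / Q.del) * ((1 + Q.e) / Q.del)⁻¹) := by
          rw [mul_inv_cancel₀ a2, mul_inv_cancel₀ b2, mul_one, mul_one]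
      _ = _ := by ring
  rw [h8]
  exact mul_mem h2 (mul_mem (inv_mem a1) (inv_mem b1))

theorem finite_MK_VK (hfin : FinE K) : ((VK K).mkQ '' (MK K : Set SC)).Finite := by
  have h1 : (MK K).map (VK K).mkQ = Submodule.span (ZMod 2)
      (Set.range fun D : Dset K => (VK K).mkQ (sc (pd D).del)) := by
    unfold MK
    rw [Submodule.map_sup, Submodule.map_span]
    have h2 : (VK K).map (VK K).mkQ = ⊥ := by
      rw [eq_bot_iff]
      rintro _ ⟨x, hx, rfl⟩
      rw [Submodule.mem_bot, Submodule.mkQ_apply, Submodule.Quotient.mk_eq_zero]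
      exact hx
    rw [h2, bot_sup_eq]
    congr 1
    ext x
    constructor
    · rintro ⟨_, ⟨D, rfl⟩, rfl⟩
      exact ⟨D, rfl⟩
    · rintro ⟨D, rfl⟩
      exact ⟨_, ⟨D, rfl⟩, rfl⟩
  have h3 := finite_span _ (step0 hfin)
  rw [← h1, Submodule.map_coe] at h3
  exact h3

/-- parity of the number of primes `3 mod 4` -/
noncomputable def t3 : SC →ₗ[ZMod 2] ZMod 2 :=
  Finsupp.linearCombination (ZMod 2) (fun p : ℕ => if p % 4 = 3 then (1 : ZMod 2) else 0)

theorem mod4 {v : SC} (hv : v ∈ PS) (h2 : v 2 = 0) (h3 : t3 v = 0) : dd v % 4 = 1 := by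
  classical
  have h4 : ((dd v : ℕ) : ZMod 4) = (-1) ^ (v.support.filter fun p => p % 4 = 3).card := by
    unfold dd
    rw [Nat.cast_prod, Finset.card_eq_sum_ones, ← Finset.prod_pow_eq_pow_sum, Finset.prod_filter]
    apply Finset.prod_congr rfl
    intro p hp
    have hp0 : v p ≠ 0 := Finsupp.mem_support_iff.1 hp
    have hpp : p.Prime := hv p hp0
    have hp2 : p ≠ 2 := by
      rintro rfl
      exact hp0 h2
    have hodd : p % 2 = 1 := hpp.eq_two_or_odd.resolve_left hp2
    have h5 : ((p : ℕ) : ZMod 4) = ((p % 4 : ℕ) : ZMod 4) := by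
      rw [ZMod.natCast_mod]
    by_cases h : p % 4 = 3
    · rw [if_pos h, h5, h]
      decide
    · rw [if_neg h, h5]
      have : p % 4 = 1 := by omega
      rw [this]
      decide
  have h5 : Even (v.support.filter fun p => p % 4 = 3).card := by
    rw [← ZMod.natCast_eq_zero_iff_even, ← h3]
    unfold t3
    rw [Finsupp.linearCombination_apply, Finsupp.sum, Finset.card_eq_sum_ones, Nat.cast_sum,
      Finset.sum_filter]
    apply Finset.sum_congr rfl
    intro p hp
    have hp0 : v p ≠ 0 := Finsupp.mem_support_iff.1 hp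
    have hp1 : v p = 1 := (zmod2_cases _).resolve_left hp0
    rw [hp1, one_smul]
    simp
  rw [h5.neg_one_pow] at h4
  have h6 : ((dd v : ℕ) : ZMod 4) = ((1 : ℕ) : ZMod 4) := by rw [h4, Nat.cast_one]
  rw [ZMod.natCast_eq_natCast_iff'] at h6
  exact h6

theorem isSquare_two {P Q : PD} {v w : SC} (h1 : sc P.del = v) (h2 : sc Q.del = w) (h : v = w) :
    IsSquare ((([P, Q] : List PD).map PD.del).prod * (([] : List ND).map ND.b).prod) := by
  have : (([P, Q] : List PD).map PD.del).prod * (([] : List ND).map ND.b).prod =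
      P.del * Q.del := by simp
  rw [this]
  exact isSquare_mul_of_sc P.del_ne Q.del_ne (by rw [h1, h2, h])

theorem FF_two (P Q : PD) (σ : Gam) :
    FF [P, Q] σ = cv (sc P.del) σ * cv (sc P.del') σ + cv (sc Q.del) σ * cv (sc Q.del') σ := by
  unfold FF
  simp only [List.map_cons, List.map_nil, List.sum_cons, List.sum_nil, add_zero]
  rw [ch_eq_cv P.del_ne, ch_eq_cv P.del'_ne, ch_eq_cv Q.del_ne, ch_eq_cv Q.del'_ne]

/-- Step 1 -/
theorem step1 (hK : K ≤ Q2) (hfin : FinE K) : ((NK K).mkQ '' (MK K : Set SC)).Finite := by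
  classical
  by_contra hinf
  -- pivots
  have hpiv := exists_pivot (MK K)
  have hpiv' : ∀ p : ℕ, ∃ g : SC, p ∈ piv (MK K) → g ∈ MK K ∧ g p = 1 ∧
      (∀ q, p < q → g q = 0) ∧ ∀ q ∈ piv (MK K), q ≠ p → g q = 0 := by
    intro p
    by_cases h : p ∈ piv (MK K)
    · obtain ⟨g, hg⟩ := hpiv p h
      exact ⟨g, fun _ => hg⟩
    · exact ⟨0, fun h' => absurd h' h⟩
  choose g hg using hpiv'
  -- the pivots generate
  have hspan : MK K ≤ Submodule.span (ZMod 2) (g '' piv (MK K)) := by
    intro m hm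
    have h1 : m = ∑ p ∈ m.support.filter (fun p => p ∈ piv (MK K)), m p • g p := by
      apply eq_of_piv (MK K) m _ hm
      · apply Submodule.sum_mem
        intro p hp
        exact (MK K).smul_mem _ (hg p (Finset.mem_filter.1 hp).2).1
      · intro q hq
        rw [Finsupp.finsetSum_apply]
        have h2 : ∀ p ∈ m.support.filter (fun p => p ∈ piv (MK K)), (m p • g p) q =
            if p = q then m q else 0 := by
          intro p hp
          have hp' := (Finset.mem_filter.1 hp).2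
          rw [Finsupp.smul_apply, smul_eq_mul]
          by_cases h : p = q
          · subst h
            rw [if_pos rfl, (hg p hp').2.1, mul_one]
          · rw [if_neg h, (hg p hp').2.2.2 q hq (Ne.symm h), mul_zero]
        rw [Finset.sum_congr rfl h2, Finset.sum_ite_eq']
        by_cases h : m q = 0
        · rw [h]
          simp
        · rw [if_pos]
          exact Finset.mem_filter.2 ⟨Finsupp.mem_support_iff.2 h, hq⟩
    rw [h1]
    apply Submodule.sum_mem
    intro p hp
    exact Submodule.smul_mem _ _ (Submodule.subset_span ⟨p, (Finset.mem_filter.1 hp).2, rfl⟩)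
  -- infinitely many classes of pivot vectors
  have hinf1 : ((NK K).mkQ '' (g '' piv (MK K))).Infinite := by
    intro hf
    apply hinf
    have h1 := finite_span _ hf
    rw [← Submodule.map_span, Submodule.map_coe] at h1
    exact h1.subset (Set.image_mono hspan)
  have hinf2 : Infinite ((NK K).mkQ '' (g '' piv (MK K))) := hinf1.to_subtype
  have hrep : ∀ x : (NK K).mkQ '' (g '' piv (MK K)), ∃ p, p ∈ piv (MK K) ∧
      (NK K).mkQ (g p) = x := by
    rintro ⟨_, ⟨_, ⟨p, hp, rfl⟩, rfl⟩⟩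
    exact ⟨p, hp, rfl⟩
  choose q hq hq' using hrep
  have hfinV : Finite ((VK K).mkQ '' (MK K : Set SC)) := (finite_MK_VK hfin).to_subtype
  -- the colour
  let col : (NK K).mkQ '' (g '' piv (MK K)) → ((VK K).mkQ '' (MK K : Set SC)) × (ZMod 2 × ZMod 2) :=
    fun x => (⟨(VK K).mkQ (g (q x)), ⟨g (q x), (hg _ (hq x)).1, rfl⟩⟩, (g (q x) 2, t3 (g (q x))))
  obtain ⟨c, hc⟩ := Finite.exists_infinite_fiber col
  -- the family
  let ι := col ⁻¹' {c}
  have hι : Infinite ι := hc
  let G : ι → SC := fun i => g (q i)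
  have hGM : ∀ i, G i ∈ MK K := fun i => (hg _ (hq i)).1
  have hcol : ∀ i j : ι, (VK K).mkQ (G i) = (VK K).mkQ (G j) ∧ G i 2 = G j 2 ∧
      t3 (G i) = t3 (G j) := by
    intro i j
    have h1 : col i = col j := by
      have a1 : col i = c := i.2
      have a2 : col j = c := j.2
      rw [a1, a2]
    have h2 := congrArg Prod.fst h1
    have h3 := congrArg Prod.snd h1
    refine ⟨congrArg Subtype.val h2, congrArg Prod.fst h3, congrArg Prod.snd h3⟩
  have hqinj : ∀ i j : ι, q i = q j → i = j := by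
    intro i j h
    apply Subtype.ext
    apply Subtype.ext
    rw [← hq' i, ← hq' j, h]
  have hV : ∀ i j : ι, G i + G j ∈ VK K := by
    intro i j
    have h1 := (hcol i j).1
    rw [Submodule.mkQ_apply, Submodule.mkQ_apply, Submodule.Quotient.eq] at h1
    have h2 : G i - G j = G i + G j := by
      rw [sub_eq_add_neg]
      congr 1
      rw [neg_eq_iff_add_eq_zero]
      exact w_add_self _
    rwa [h2] at h1
  have hN : ∀ i j : ι, i ≠ j → G i + G j ∉ NK K := by
    intro i j hij h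
    apply hij
    apply Subtype.ext
    apply Subtype.ext
    rw [← hq' i, ← hq' j, Submodule.mkQ_apply, Submodule.mkQ_apply, Submodule.Quotient.eq]
    have h2 : G i - G j = G i + G j := by
      rw [sub_eq_add_neg]
      congr 1
      rw [neg_eq_iff_add_eq_zero]
      exact w_add_self _
    have h3 : g (q i) - g (q j) = G i + G j := h2
    rw [h3]
    exact h
  have hdd : ∀ i j : ι, i ≠ j → dd (G i + G j) ∈ Dset K := by
    intro i j hij
    have hp := VK_le (hV i j)
    refine ⟨squarefree_dd _ hp, sqrt_dd_mem (hV i j), fun hneg => ?_⟩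
    apply hN i j hij
    obtain ⟨N, hNb⟩ := hneg.nd
    refine ⟨[N], ?_, ?_⟩
    · intro N' hN'
      rw [List.mem_singleton] at hN'
      rw [hN', hNb]
      exact sqrt_dd_mem (hV i j)
    · rw [List.map_cons, List.map_nil, List.sum_cons, List.sum_nil, add_zero, hNb, sc_dd _ hp]
  -- the chosen solutions
  have hD : ∀ i j : ι, ∃ P : PD, i ≠ j → P.D = dd (G i + G j) ∧
      ((sc P.del = G i ∧ sc P.del' = G j) ∨ (sc P.del = G j ∧ sc P.del' = G i)) := by
    intro i j
    by_cases hij : i = j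
    · refine ⟨⟨2, 3, 2, by norm_num, by norm_num⟩, fun h => absurd hij h⟩
    set D : Dset K := ⟨dd (G i + G j), hdd i j hij⟩ with hDdef
    refine ⟨pd D, fun _ => ⟨pd_D D, ?_⟩⟩
    set P := pd D with hP
    have hPD : P.D = dd (G i + G j) := pd_D D
    have hadd : sc P.del + sc P.del' = G i + G j := by
      rw [P.sc_add, hPD, sc_dd _ (VK_le (hV i j))]
    have h4 : P.D % 4 = 1 := by
      rw [hPD]
      apply mod4 (VK_le (hV i j))
      · rw [Finsupp.add_apply, (hcol i j).2.1, zmod2_add_self]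
      · rw [map_add, (hcol i j).2.2, zmod2_add_self]
    have hdisj := P.disj h4
    have hij' : q i ≠ q j := fun h => hij (hqinj i j h)
    -- values at pivots
    have hGii : ∀ i : ι, G i (q i) = 1 := fun i => (hg _ (hq i)).2.1
    have hGij : ∀ (i : ι) (r : ℕ), r ∈ piv (MK K) → r ≠ q i → G i r = 0 := fun i r hr hri =>
      (hg _ (hq i)).2.2.2 r hr hri
    have happ : ∀ r, sc P.del r + sc P.del' r = G i r + G j r := by
      intro r
      rw [← Finsupp.add_apply, hadd, Finsupp.add_apply]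
    have hother : ∀ r ∈ piv (MK K), r ≠ q i → r ≠ q j → sc P.del r = 0 ∧ sc P.del' r = 0 := by
      intro r hr h1 h2
      have h3 := happ r
      rw [hGij i r hr h1, hGij j r hr h2, add_zero] at h3
      rcases hdisj r with h | h
      · rw [h, zero_add] at h3
        exact ⟨h, h3⟩
      · rw [h, add_zero] at h3
        exact ⟨h3, h⟩
    have hone : ∀ a b : ZMod 2, (a = 0 ∨ b = 0) → a + b = 1 → (a = 1 ∧ b = 0) ∨ (a = 0 ∧ b = 1) := by
      decide
    have hi := hone _ _ (hdisj (q i)) (by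
      rw [happ, hGii, hGij j (q i) (hq i) hij', add_zero])
    have hj := hone _ _ (hdisj (q j)) (by
      rw [happ, hGii, hGij i (q j) (hq j) hij'.symm, zero_add])
    have hdelM : sc P.del ∈ MK K := del_mem D
    have hdelM' : sc P.del' ∈ MK K := del'_mem D
    rcases hi with ⟨i1, i2⟩ | ⟨i1, i2⟩ <;> rcases hj with ⟨j1, j2⟩ | ⟨j1, j2⟩
    · exfalso
      apply pd_del' D
      apply piv_zero (MK K) _ hdelM'
      intro r hr
      by_cases h1 : r = q i
      · rw [h1]; exact i2
      by_cases h2 : r = q j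
      · rw [h2]; exact j2
      exact (hother r hr h1 h2).2
    · left
      constructor
      · apply eq_of_piv (MK K) _ _ hdelM (hGM i)
        intro r hr
        by_cases h1 : r = q i
        · rw [h1, i1, hGii]
        by_cases h2 : r = q j
        · rw [h2, j1, hGij i _ (hq j) hij'.symm]
        rw [(hother r hr h1 h2).1, hGij i r hr h1]
      · apply eq_of_piv (MK K) _ _ hdelM' (hGM j)
        intro r hr
        by_cases h1 : r = q i
        · rw [h1, i2, hGij j _ (hq i) hij']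
        by_cases h2 : r = q j
        · rw [h2, j2, hGii]
        rw [(hother r hr h1 h2).2, hGij j r hr h2]
    · right
      constructor
      · apply eq_of_piv (MK K) _ _ hdelM (hGM j)
        intro r hr
        by_cases h1 : r = q i
        · rw [h1, i1, hGij j _ (hq i) hij']
        by_cases h2 : r = q j
        · rw [h2, j1, hGii]
        rw [(hother r hr h1 h2).1, hGij j r hr h2]
      · apply eq_of_piv (MK K) _ _ hdelM' (hGM i)
        intro r hr
        by_cases h1 : r = q i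
        · rw [h1, i2, hGii]
        by_cases h2 : r = q j
        · rw [h2, j2, hGij i _ (hq j) hij'.symm]
        rw [(hother r hr h1 h2).2, hGij i r hr h1]
    · exfalso
      apply pd_del D
      apply piv_zero (MK K) _ hdelM
      intro r hr
      by_cases h1 : r = q i
      · rw [h1]; exact i1
      by_cases h2 : r = q j
      · rw [h2]; exact j1
      exact (hother r hr h1 h2).1
  choose P hPD hPG using hD
  have hPK : ∀ i j : ι, i ≠ j → √((P i j).D : ℝ) ∈ K := by
    intro i j hij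
    rw [hPD i j hij]
    exact sqrt_dd_mem (hV i j)
  have hGPS : ∀ i, G i ∈ PS := fun i => MK_le (hGM i)
  have hG0 : ∀ i, G i ≠ 0 := by
    intro i h
    have h1 : G i (q i) = 1 := (hg _ (hq i)).2.1
    rw [h] at h1
    exact zero_ne_one h1
  have hGG0 : ∀ i j : ι, i ≠ j → G i + G j ≠ 0 := by
    intro i j hij h
    apply hN i j hij
    rw [h]
    exact (NK K).zero_mem
  have hcancel : ∀ a b c d : ZMod 2, a * b + c = a * d + c → a * (b + d) = 0 := by decide
  by_cases hA : ∃ i : ι, {j : ι | j ≠ i ∧ sc (P i j).del = G i}.Infinite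
  · -- Case A
    obtain ⟨i, hi⟩ := hA
    have hJ : Infinite {j : ι | j ≠ i ∧ sc (P i j).del = G i} := hi.to_subtype
    obtain ⟨j0, hj0, hj0'⟩ := hi.nonempty
    have hdel' : ∀ j : ι, j ≠ i → sc (P i j).del = G i → sc (P i j).del' = G j := by
      intro j hji h
      rcases hPG i j hji.symm with h1 | h1
      · exact h1.2
      · exfalso
        apply hGG0 i j hji.symm
        rw [← h, h1.1, w_add_self]
    obtain ⟨j, j', hjj, hF⟩ := mainLemma hK hfin
      (fun j : {j : ι | j ≠ i ∧ sc (P i j).del = G i} => [P i j, P i j0]) (fun _ => [])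
      (fun j P' hP' => by
        rw [List.mem_cons, List.mem_singleton] at hP'
        rcases hP' with rfl | rfl
        · exact hPK i j j.2.1.symm
        · exact hPK i j0 hj0.symm)
      (fun j N hN => by simp at hN)
      (fun j => isSquare_two j.2.2 hj0' rfl)
    have hjj' : (j : ι) ≠ j' := fun h => hjj (Subtype.ext h)
    obtain ⟨σ, h1, h2⟩ := both_one (hGPS i) (PS.add_mem (hGPS j) (hGPS j')) (hG0 i)
      (hGG0 j j' hjj')
    have h3 := hF σ
    rw [FF_two, FF_two, j.2.2, j'.2.2, hdel' j j.2.1 j.2.2, hdel' j' j'.2.1 j'.2.2] at h3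
    have h4 := hcancel _ _ _ _ h3
    rw [← cv_add, h1, h2] at h4
    exact absurd h4 (by decide)
  · -- Case B
    push Not at hA
    obtain ⟨i1, i2, hi12⟩ := exists_pair_ne ι
    have hfinU := ((hA i1).union (hA i2)).union (Set.toFinite ({i1, i2} : Set ι))
    have hJ : Infinite (({j : ι | j ≠ i1 ∧ sc (P i1 j).del = G i1} ∪
        {j : ι | j ≠ i2 ∧ sc (P i2 j).del = G i2}) ∪ {i1, i2} : Set ι).compl :=
      (Set.Finite.infinite_compl hfinU).to_subtype
    have hJ' : ∀ j : ↥(({j : ι | j ≠ i1 ∧ sc (P i1 j).del = G i1} ∪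
        {j : ι | j ≠ i2 ∧ sc (P i2 j).del = G i2}) ∪ {i1, i2} : Set ι).compl,
        (j : ι) ≠ i1 ∧ (j : ι) ≠ i2 ∧ sc (P i1 j).del = G j ∧ sc (P i1 j).del' = G i1 ∧
        sc (P i2 j).del = G j ∧ sc (P i2 j).del' = G i2 := by
      rintro ⟨j, hj⟩
      have hj' : j ∉ (({j : ι | j ≠ i1 ∧ sc (P i1 j).del = G i1} ∪
        {j : ι | j ≠ i2 ∧ sc (P i2 j).del = G i2}) ∪ {i1, i2} : Set ι) := hj
      rw [Set.mem_union, Set.mem_union, Set.mem_insert_iff, Set.mem_singleton_iff] at hj'
      push Not at hj'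
      obtain ⟨⟨a1, a2⟩, a3, a4⟩ := hj'
      have b1 : ¬ (j ≠ i1 ∧ sc (P i1 j).del = G i1) := a1
      have b2 : ¬ (j ≠ i2 ∧ sc (P i2 j).del = G i2) := a2
      have c1 : ¬ sc (P i1 j).del = G i1 := fun h => b1 ⟨a3, h⟩
      have c2 : ¬ sc (P i2 j).del = G i2 := fun h => b2 ⟨a4, h⟩
      have d1 := (hPG i1 j (Ne.symm a3)).resolve_left (fun h => c1 h.1)
      have d2 := (hPG i2 j (Ne.symm a4)).resolve_left (fun h => c2 h.1)
      exact ⟨a3, a4, d1.1, d1.2, d2.1, d2.2⟩
    obtain ⟨j, j', hjj, hF⟩ := mainLemma hK hfin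
      (fun j : ↥(({j : ι | j ≠ i1 ∧ sc (P i1 j).del = G i1} ∪
        {j : ι | j ≠ i2 ∧ sc (P i2 j).del = G i2}) ∪ {i1, i2} : Set ι).compl =>
        [P i1 j, P i2 j]) (fun _ => [])
      (fun j P' hP' => by
        rw [List.mem_cons, List.mem_singleton] at hP'
        rcases hP' with rfl | rfl
        · exact hPK i1 j (hJ' j).1.symm
        · exact hPK i2 j (hJ' j).2.1.symm)
      (fun j N hN => by simp at hN)
      (fun j => isSquare_two (hJ' j).2.2.1 (hJ' j).2.2.2.2.1 rfl)
    have hjj' : (j : ι) ≠ j' := fun h => hjj (Subtype.ext h)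
    obtain ⟨σ, h1, h2⟩ := both_one (PS.add_mem (hGPS i1) (hGPS i2))
      (PS.add_mem (hGPS j) (hGPS j')) (hGG0 i1 i2 hi12) (hGG0 j j' hjj')
    have h3 := hF σ
    obtain ⟨-, -, a1, a2, a3, a4⟩ := hJ' j
    obtain ⟨-, -, b1, b2, b3, b4⟩ := hJ' j'
    rw [FF_two, FF_two, a1, a2, a3, a4, b1, b2, b3, b4] at h3
    rw [cv_add] at h1 h2
    have key : ∀ a b c d : ZMod 2, a + b = 1 → c + d = 1 → c * a + c * b = d * a + d * b →
        False := by decide
    exact key _ _ _ _ h1 h2 h3

/-- Step 2 -/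
theorem step2 (hK : K ≤ Q2) (hfin : FinE K) : (Dset K).Finite := by
  classical
  by_contra hinf
  have hinf' : Infinite (Dset K) := Set.infinite_coe_iff.2 hinf
  have hf : Finite ((NK K).mkQ '' (MK K : Set SC)) := (step1 hK hfin).to_subtype
  let col : Dset K → ((NK K).mkQ '' (MK K : Set SC)) := fun D =>
    ⟨(NK K).mkQ (sc (pd D).del), ⟨_, del_mem D, rfl⟩⟩
  obtain ⟨c, hc⟩ := Finite.exists_infinite_fiber col
  let ι := col ⁻¹' {c}
  have hι : Infinite ι := hc
  obtain ⟨i0⟩ : Nonempty ι := inferInstance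
  have hN : ∀ i : ι, ∃ S : List ND, (∀ N ∈ S, √(N.b : ℝ) ∈ K) ∧
      (S.map fun N => sc N.b).sum = sc (pd i.1).del + sc (pd i0.1).del := by
    intro i
    have h1 : col i = col i0 := by
      have a1 : col i = c := i.2
      have a2 : col i0 = c := i0.2
      rw [a1, a2]
    have h2 : (NK K).mkQ (sc (pd i.1).del) = (NK K).mkQ (sc (pd i0.1).del) :=
      congrArg Subtype.val h1
    rw [Submodule.mkQ_apply, Submodule.mkQ_apply, Submodule.Quotient.eq] at h2
    have h3 : sc (pd i.1).del - sc (pd i0.1).del = sc (pd i.1).del + sc (pd i0.1).del := by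
      rw [sub_eq_add_neg]
      congr 1
      rw [neg_eq_iff_add_eq_zero]
      exact w_add_self _
    rw [h3] at h2
    exact h2
  choose S hS hS' using hN
  have hprodS : ∀ S : List ND, (S.map ND.b).prod ≠ 0 ∧
      sc (S.map ND.b).prod = (S.map fun N => sc N.b).sum := by
    intro S
    induction S with
    | nil => exact ⟨one_ne_zero, sc_one⟩
    | cons N S ih =>
      rw [List.map_cons, List.prod_cons, List.map_cons, List.sum_cons, sc_mul N.b_ne ih.1, ih.2]
      exact ⟨mul_ne_zero N.b_ne ih.1, rfl⟩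
  obtain ⟨i, j, hij, hF⟩ := mainLemma hK hfin (fun i : ι => [pd i.1, pd i0.1]) S
    (fun i P hP => by
      rw [List.mem_cons, List.mem_singleton] at hP
      rcases hP with rfl | rfl
      · rw [pd_D]
        exact i.1.2.2.1
      · rw [pd_D]
        exact i0.1.2.2.1) hS
    (fun i => by
      have h1 : (([pd i.1, pd i0.1] : List PD).map PD.del).prod = (pd i.1).del * (pd i0.1).del := by
        simp
      rw [h1]
      apply isSquare_mul_of_sc (mul_ne_zero (pd i.1).del_ne (pd i0.1).del_ne) (hprodS (S i)).1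
      rw [(hprodS (S i)).2, hS' i, sc_mul (pd i.1).del_ne (pd i0.1).del_ne])
  apply hij
  apply Subtype.ext
  apply Subtype.ext
  apply eq_of_sc i.1.2.1 j.1.2.1
  have h1 : ∀ σ, cv (sc (pd i.1).del) σ * cv (sc (pd i.1).del') σ =
      cv (sc (pd j.1).del) σ * cv (sc (pd j.1).del') σ := by
    intro σ
    have h2 := hF σ
    rw [FF_two, FF_two] at h2
    exact add_right_cancel h2
  have h2 := polar (sc_mem_PS _) (sc_mem_PS _) (pd_del i.1) (pd_del' i.1) h1
  rw [(pd i.1).sc_add, (pd j.1).sc_add, pd_D, pd_D] at h2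
  have h3 : sc (i.1 : ℕ) + sc (j.1 : ℕ) = 0 := by
    apply cv_faithful (PS.add_mem (sc_mem_PS _) (sc_mem_PS _))
    intro σ
    rw [cv_add, h2 σ, zmod2_add_self]
  calc sc (i.1 : ℕ) = sc (i.1 : ℕ) + (sc (j.1 : ℕ) + sc (j.1 : ℕ)) := by
        rw [w_add_self, add_zero]
    _ = sc (j.1 : ℕ) := by rw [← add_assoc, h3, zero_add]

end Pool.Agent.TPU
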