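import Pool.Agent.Work.MP_d956f3_nt.Crit

set_option autoImplicit false

/-! # MP_d956f3_nt: totally positive units -/

namespace Pool.Agent.TPU

open NumberField

/-- The totally positive units. -/
noncomputable def TP (K : IntermediateField ℚ ℝ) : Subgroup (𝓞 K)ˣ where
  carrier := {u | ∀ φ : K →+* ℝ, 0 < φ ((u : 𝓞 K) : K)}
  one_mem' := by
    intro φ
    simp
  mul_mem' := by
    intro a b ha hb φ
    have h1 : φ (((a * b : (𝓞 K)ˣ) : 𝓞 K) : K) = φ ((a : 𝓞 K) : K) * φ ((b : 𝓞 K) : K) := by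
      rw [← map_mul]
      rfl
    rw [h1]
    exact mul_pos (ha φ) (hb φ)
  inv_mem' := by
    intro a ha φ
    have h1 : φ ((a : 𝓞 K) : K) * φ (((a⁻¹ : (𝓞 K)ˣ) : 𝓞 K) : K) = 1 := by
      rw [← map_mul, ← map_mul, Units.mul_inv, map_one, map_one]
    exact (pos_iff_pos_of_mul_pos (by rw [h1]; exact one_pos)).1 (ha φ)

/-- The squares of units. -/
noncomputable def Sq (K : IntermediateField ℚ ℝ) : Subgroup (𝓞 K)ˣ := (powMonoidHom 2 : (𝓞 K)ˣ →* (𝓞 K)ˣ).range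

/-- The group of totally positive units modulo squares is finite. -/
def FinE (K : IntermediateField ℚ ℝ) : Prop := Finite (TP K ⧸ (Sq K).subgroupOf (TP K))

/-- totally positive elements of `K` -/
def Pos (K : IntermediateField ℚ ℝ) (r : ℝ) : Prop :=
  ∃ h : r ∈ K, ∀ φ : K →+* ℝ, 0 < φ ⟨r, h⟩

variable {K : IntermediateField ℚ ℝ}

theorem Pos.mul {r s : ℝ} (hr : Pos K r) (hs : Pos K s) : Pos K (r * s) := by
  obtain ⟨h1, h2⟩ := hr
  obtain ⟨h3, h4⟩ := hs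
  refine ⟨mul_mem h1 h3, fun φ => ?_⟩
  have : (⟨r * s, mul_mem h1 h3⟩ : K) = ⟨r, h1⟩ * ⟨s, h3⟩ := rfl
  rw [this, map_mul]
  exact mul_pos (h2 φ) (h4 φ)

theorem Pos.nat {n : ℕ} (hn : n ≠ 0) : Pos K (n : ℝ) := by
  have hm : (n : ℝ) ∈ K := natCast_mem K n
  refine ⟨hm, fun φ => ?_⟩
  have : (⟨(n : ℝ), hm⟩ : K) = (n : K) := rfl
  rw [this, map_natCast]
  exact_mod_cast Nat.pos_of_ne_zero hn

theorem Pos.inv {r : ℝ} (hr : Pos K r) : Pos K r⁻¹ := by
  obtain ⟨h1, h2⟩ := hr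
  refine ⟨inv_mem h1, fun φ => ?_⟩
  have : (⟨r⁻¹, inv_mem h1⟩ : K) = ⟨r, h1⟩⁻¹ := rfl
  rw [this, map_inv₀]
  exact inv_pos.2 (h2 φ)

theorem Pos.prod {ι : Type} (L : List ι) (f : ι → ℝ) (h : ∀ i ∈ L, Pos K (f i)) :
    Pos K (L.map f).prod := by
  induction L with
  | nil =>
    have := Pos.nat (K := K) one_ne_zero
    simpa using this
  | cons a L ih =>
    rw [List.map_cons, List.prod_cons]
    exact (h a List.mem_cons_self).mul (ih fun i hi => h i (List.mem_cons_of_mem a hi))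

/-- `a + b √n` is totally positive if `a > |b| √n` -/
theorem Pos.quad {n : ℕ} {a b : ℕ} (hn : √(n : ℝ) ∈ K) (hab : n * b ^ 2 < a ^ 2) :
    Pos K (a + b * √(n : ℝ)) := by
  have hm : (a : ℝ) + b * √(n : ℝ) ∈ K :=
    add_mem (natCast_mem K a) (mul_mem (natCast_mem K b) hn)
  refine ⟨hm, fun φ => ?_⟩
  have h1 : (⟨(a : ℝ) + b * √(n : ℝ), hm⟩ : K) = (a : K) + (b : K) * ⟨√(n : ℝ), hn⟩ := rfl
  rw [h1, map_add, map_mul, map_natCast, map_natCast]
  set t : ℝ := φ ⟨√(n : ℝ), hn⟩ with ht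
  have h2 : t * t = n := by
    rw [ht, ← map_mul]
    have : (⟨√(n : ℝ), hn⟩ : K) * ⟨√(n : ℝ), hn⟩ = (n : K) := by
      apply Subtype.ext
      change √(n : ℝ) * √(n : ℝ) = ((n : K) : ℝ)
      rw [Real.mul_self_sqrt (Nat.cast_nonneg n)]
      rfl
    rw [this, map_natCast]
  have h3 : (n : ℝ) * (b : ℝ) ^ 2 < (a : ℝ) ^ 2 := by exact_mod_cast hab
  have h4 : ((b : ℝ) * t) ^ 2 < (a : ℝ) ^ 2 := by
    calc ((b : ℝ) * t) ^ 2 = (t * t) * (b : ℝ) ^ 2 := by ring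
      _ < (a : ℝ) ^ 2 := by rw [h2]; exact h3
  have h5 := abs_lt_of_sq_lt_sq h4 (Nat.cast_nonneg a)
  have h6 := (abs_lt.1 h5).1
  linarith

theorem PD.pos_one_add (P : PD) (h : √(P.D : ℝ) ∈ K) : Pos K (1 + P.e) := by
  have h1 : Pos K (((P.x + 1 : ℕ) : ℝ) + P.y * √(P.D : ℝ)) := by
    apply Pos.quad h
    calc P.D * P.y ^ 2 < P.D * P.y ^ 2 + 1 := Nat.lt_succ_self _
      _ = P.x ^ 2 := P.h.symm
      _ ≤ (P.x + 1) ^ 2 := Nat.pow_le_pow_left (Nat.le_succ _) 2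
  have h2 : (1 : ℝ) + P.e = ((P.x + 1 : ℕ) : ℝ) + P.y * √(P.D : ℝ) := by
    unfold PD.e
    push_cast
    ring
  rw [h2]
  exact h1

theorem ND.pos_mul (N : ND) (h : √(N.b : ℝ) ∈ K) : Pos K (√(N.b : ℝ) * N.eps) := by
  have h1 : Pos K (((N.w * N.b : ℕ) : ℝ) + N.z * √(N.b : ℝ)) := by
    apply Pos.quad h
    have h2 := N.h
    have h3 := Nat.pos_of_ne_zero N.b_ne
    calc N.b * N.z ^ 2 < N.b * (N.z ^ 2 + 1) := by nlinarith
      _ = (N.w * N.b) ^ 2 := by rw [h2]; ring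
  have h2 : √(N.b : ℝ) * N.eps = ((N.w * N.b : ℕ) : ℝ) + N.z * √(N.b : ℝ) := by
    unfold ND.eps
    have h3 : √(N.b : ℝ) * √(N.b : ℝ) = N.b := Real.mul_self_sqrt (Nat.cast_nonneg _)
    push_cast
    calc √(N.b : ℝ) * ((N.z : ℝ) + N.w * √(N.b : ℝ))
        = N.w * (√(N.b : ℝ) * √(N.b : ℝ)) + N.z * √(N.b : ℝ) := by ring
      _ = N.w * N.b + N.z * √(N.b : ℝ) := by rw [h3]
  rw [h2]
  exact h1

/-- the unit of a pair of lists -/
noncomputable def uu (T : List PD) (S : List ND) : ℝ := (T.map PD.eta).prod * (S.map ND.eps).prod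

theorem prod_eta (T : List PD) : (T.map PD.eta).prod =
    √(((T.map PD.del).prod : ℕ) : ℝ) * (T.map fun P => (1 + P.e) * (P.del : ℝ)⁻¹).prod := by
  induction T with
  | nil => simp
  | cons P T ih =>
    simp only [List.map_cons, List.prod_cons]
    rw [ih, Nat.cast_mul, Real.sqrt_mul (Nat.cast_nonneg _), P.eta_eq]
    ring

theorem prod_eps (S : List ND) : (S.map ND.eps).prod =
    √(((S.map ND.b).prod : ℕ) : ℝ) *
      (S.map fun N => (√(N.b : ℝ) * N.eps) * (N.b : ℝ)⁻¹).prod := by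
  induction S with
  | nil => simp
  | cons N S ih =>
    simp only [List.map_cons, List.prod_cons]
    rw [ih, Nat.cast_mul, Real.sqrt_mul (Nat.cast_nonneg _)]
    have h1 : √(N.b : ℝ) * √(N.b : ℝ) = N.b := Real.mul_self_sqrt (Nat.cast_nonneg _)
    have h2 : (N.b : ℝ) ≠ 0 := by exact_mod_cast N.b_ne
    have h3 : N.eps = √(N.b : ℝ) * ((√(N.b : ℝ) * N.eps) * (N.b : ℝ)⁻¹) := by
      calc N.eps = (N.b : ℝ) * (N.b : ℝ)⁻¹ * N.eps := by rw [mul_inv_cancel₀ h2, one_mul]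
        _ = (√(N.b : ℝ) * √(N.b : ℝ)) * (N.b : ℝ)⁻¹ * N.eps := by rw [h1]
        _ = _ := by ring
    conv_lhs => rw [h3]
    ring

theorem uu_pos (T : List PD) (S : List ND) (hT : ∀ P ∈ T, √(P.D : ℝ) ∈ K)
    (hS : ∀ N ∈ S, √(N.b : ℝ) ∈ K)
    (hsq : IsSquare ((T.map PD.del).prod * (S.map ND.b).prod)) : Pos K (uu T S) := by
  obtain ⟨s, hs⟩ := hsq
  have hs0 : s ≠ 0 := by
    rintro rfl
    rw [mul_zero] at hs
    rcases Nat.mul_eq_zero.1 hs with h | h
    · rw [List.prod_eq_zero_iff, List.mem_map] at h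
      obtain ⟨P, _, hP⟩ := h
      exact P.del_ne hP
    · rw [List.prod_eq_zero_iff, List.mem_map] at h
      obtain ⟨P, _, hP⟩ := h
      exact P.b_ne hP
  have h1 : uu T S = (s : ℝ) * ((T.map fun P => (1 + P.e) * (P.del : ℝ)⁻¹).prod *
      (S.map fun N => (√(N.b : ℝ) * N.eps) * (N.b : ℝ)⁻¹).prod) := by
    unfold uu
    rw [prod_eta, prod_eps]
    have h2 : √(((T.map PD.del).prod : ℕ) : ℝ) * √(((S.map ND.b).prod : ℕ) : ℝ) = s := by
      rw [← Real.sqrt_mul (Nat.cast_nonneg _), ← Nat.cast_mul, hs, Nat.cast_mul,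
        Real.sqrt_mul_self (Nat.cast_nonneg _)]
    rw [← h2]
    ring
  rw [h1]
  refine (Pos.nat hs0).mul (Pos.mul (Pos.prod T _ fun P hP => ?_) (Pos.prod S _ fun N hN => ?_))
  · exact (P.pos_one_add (hT P hP)).mul (Pos.nat P.del_ne).inv
  · exact (N.pos_mul (hS N hN)).mul (Pos.nat N.b_ne).inv

theorem int_sqrt (n : ℕ) : IsIntegral ℤ (√(n : ℝ)) := by
  apply IsIntegral.of_pow two_pos
  rw [Real.sq_sqrt (Nat.cast_nonneg n)]
  exact isIntegral_algebraMap (R := ℤ) (x := (n : ℤ)) |> fun h => by simpa using h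

theorem int_nat (n : ℕ) : IsIntegral ℤ (n : ℝ) := by
  have h : IsIntegral ℤ ((algebraMap ℤ ℝ) (n : ℤ)) := isIntegral_algebraMap
  simpa using h

theorem PD.int_eta (P : PD) : IsIntegral ℤ P.eta ∧ IsIntegral ℤ P.eta⁻¹ := by
  have h0 : IsIntegral ℤ P.e :=
    (int_nat P.x).add ((int_nat P.y).mul (int_sqrt P.D))
  have h1 : P.eta ^ 2 = P.e := by rw [sq, P.eta_sq]
  have h2 : P.e⁻¹ = P.x - P.y * √(P.D : ℝ) := by
    rw [inv_eq_iff_eq_inv, ← one_div, eq_div_iff]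
    · unfold PD.e
      have h3 : √(P.D : ℝ) * √(P.D : ℝ) = P.D := Real.mul_self_sqrt (Nat.cast_nonneg _)
      have h4 := P.h_real
      calc ((P.x : ℝ) + P.y * √(P.D : ℝ)) * (P.x - P.y * √(P.D : ℝ))
          = P.x ^ 2 - P.y ^ 2 * (√(P.D : ℝ) * √(P.D : ℝ)) := by ring
        _ = 1 := by rw [h3]; linarith
    · intro h5
      have h6 : P.e * (P.x - P.y * √(P.D : ℝ)) = 1 := by
        unfold PD.e
        have h3 : √(P.D : ℝ) * √(P.D : ℝ) = P.D := Real.mul_self_sqrt (Nat.cast_nonneg _)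
        have h4 := P.h_real
        calc ((P.x : ℝ) + P.y * √(P.D : ℝ)) * (P.x - P.y * √(P.D : ℝ))
            = P.x ^ 2 - P.y ^ 2 * (√(P.D : ℝ) * √(P.D : ℝ)) := by ring
          _ = 1 := by rw [h3]; linarith
      rw [h5, mul_zero] at h6
      exact zero_ne_one h6
  constructor
  · apply IsIntegral.of_pow two_pos
    rw [h1]
    exact h0
  · apply IsIntegral.of_pow two_pos
    rw [inv_pow, h1, h2]
    exact (int_nat P.x).sub ((int_nat P.y).mul (int_sqrt P.D))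

theorem ND.int_eps (N : ND) : IsIntegral ℤ N.eps ∧ IsIntegral ℤ N.eps⁻¹ := by
  have h1 : N.eps * (N.w * √(N.b : ℝ) - N.z) = 1 := by
    have h := congrArg (fun x : Q2 => (x : ℝ)) N.epsQ_inv
    simp only [MulMemClass.coe_mul, N.coe_epsQ] at h
    simpa [coe_rt] using h
  refine ⟨(int_nat N.z).add ((int_nat N.w).mul (int_sqrt N.b)), ?_⟩
  rw [← eq_inv_of_mul_eq_one_right h1]
  exact ((int_nat N.w).mul (int_sqrt N.b)).sub (int_nat N.z)

theorem int_prod {ι : Type} (L : List ι) (f : ι → ℝ)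
    (h : ∀ i, IsIntegral ℤ (f i) ∧ IsIntegral ℤ (f i)⁻¹) :
    IsIntegral ℤ (L.map f).prod ∧ IsIntegral ℤ ((L.map f).prod)⁻¹ := by
  induction L with
  | nil => simpa using isIntegral_one
  | cons a L ih =>
    rw [List.map_cons, List.prod_cons, mul_inv]
    exact ⟨(h a).1.mul ih.1, (h a).2.mul ih.2⟩

theorem uu_int (T : List PD) (S : List ND) : IsIntegral ℤ (uu T S) ∧ IsIntegral ℤ (uu T S)⁻¹ := by
  unfold uu
  rw [mul_inv]
  have h1 := int_prod T PD.eta PD.int_eta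
  have h2 := int_prod S ND.eps ND.int_eps
  exact ⟨h1.1.mul h2.1, h1.2.mul h2.2⟩

theorem uu_ne (T : List PD) (S : List ND) : uu T S ≠ 0 := by
  unfold uu
  apply mul_ne_zero
  · apply List.prod_ne_zero
    intro h
    rw [List.mem_map] at h
    obtain ⟨a, _, ha⟩ := h
    exact a.eta_ne ha
  · apply List.prod_ne_zero
    intro h
    rw [List.mem_map] at h
    obtain ⟨a, _, ha⟩ := h
    exact a.eps_pos.ne' ha

/-- the unit of `𝓞 K` defined by a real number -/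
theorem exists_unit {r : ℝ} (hr : Pos K r) (h0 : r ≠ 0)
    (hi : IsIntegral ℤ r ∧ IsIntegral ℤ r⁻¹) :
    ∃ u : (𝓞 K)ˣ, u ∈ TP K ∧ (((u : 𝓞 K) : K) : ℝ) = r := by
  obtain ⟨hm, hp⟩ := hr
  have h1 : ∀ x : K, IsIntegral ℤ (x : ℝ) → IsIntegral ℤ x := by
    intro x hx
    have h2 : Function.Injective (K.val.toRingHom : K →+* ℝ) := K.val.injective
    have h3 : (K.val.restrictScalars ℤ) x = (x : ℝ) := rfl
    rw [← h3] at hx
    exact (isIntegral_algHom_iff (K.val.restrictScalars ℤ) K.val.injective).1 hx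
  have i1 : IsIntegral ℤ (⟨r, hm⟩ : K) := h1 _ hi.1
  have i2 : IsIntegral ℤ ((⟨r, hm⟩ : K)⁻¹) := h1 _ hi.2
  have hne : (⟨r, hm⟩ : K) ≠ 0 := fun h => h0 (congrArg Subtype.val h)
  let u : (𝓞 K)ˣ := ⟨⟨⟨r, hm⟩, i1⟩, ⟨(⟨r, hm⟩ : K)⁻¹, i2⟩,
    Subtype.ext (mul_inv_cancel₀ hne), Subtype.ext (inv_mul_cancel₀ hne)⟩
  exact ⟨u, hp, rfl⟩

/-- Pigeonhole principle for totally positive units. -/
theorem pigeon (hfin : FinE K) {ι : Type} [Infinite ι] (u : ι → ℝ) (hu : ∀ i, Pos K (u i))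
    (h0 : ∀ i, u i ≠ 0) (hi : ∀ i, IsIntegral ℤ (u i) ∧ IsIntegral ℤ (u i)⁻¹) :
    ∃ i j, i ≠ j ∧ ∃ y ∈ K, u i * u j = y * y := by
  choose U hU1 hU2 using fun i => exists_unit (hu i) (h0 i) (hi i)
  have : Finite (TP K ⧸ (Sq K).subgroupOf (TP K)) := hfin
  obtain ⟨i, j, hij, h⟩ := Finite.exists_ne_map_eq_of_infinite
    (fun i => (QuotientGroup.mk ⟨U i, hU1 i⟩ : TP K ⧸ (Sq K).subgroupOf (TP K)))
  refine ⟨i, j, hij, ?_⟩
  rw [QuotientGroup.eq, Subgroup.mem_subgroupOf] at h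
  obtain ⟨v, hv⟩ := h
  have hv' : v ^ 2 = (U i)⁻¹ * U j := hv
  refine ⟨((((U i * v : (𝓞 K)ˣ) : 𝓞 K) : K) : ℝ), (((U i * v : (𝓞 K)ˣ) : 𝓞 K) : K).2, ?_⟩
  have h2 : U i * U j = (U i * v) * (U i * v) := by
    calc U i * U j = U i * U i * ((U i)⁻¹ * U j) := by group
      _ = U i * U i * v ^ 2 := by rw [hv']
      _ = (U i * v) * (U i * v) := by rw [sq, mul_mul_mul_comm]
  have e1 : ∀ a b : (𝓞 K)ˣ, ((((a * b : (𝓞 K)ˣ) : 𝓞 K) : K) : ℝ) =
      (((a : 𝓞 K) : K) : ℝ) * (((b : 𝓞 K) : K) : ℝ) := fun a b => rfl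
  calc u i * u j = ((((U i * U j : (𝓞 K)ˣ) : 𝓞 K) : K) : ℝ) := by rw [e1, hU2, hU2]
    _ = (((((U i * v) * (U i * v) : (𝓞 K)ˣ) : 𝓞 K) : K) : ℝ) := by rw [h2]
    _ = _ := e1 _ _

/-- the invariant -/
noncomputable def FF (T : List PD) (σ : Gam) : ZMod 2 :=
  (T.map fun P => ch P.del σ * ch P.del' σ).sum

theorem ch_prod {ι : Type} (L : List ι) (f : ι → ℕ) (hf : ∀ i, f i ≠ 0) (σ : Gam) :
    ch (L.map f).prod σ = (L.map fun i => ch (f i) σ).sum ∧ (L.map f).prod ≠ 0 := by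
  induction L with
  | nil => exact ⟨ch_one σ, one_ne_zero⟩
  | cons a L ih =>
    rw [List.map_cons, List.prod_cons, List.map_cons, List.sum_cons, ch_mul (hf a) ih.2, ih.1]
    exact ⟨rfl, mul_ne_zero (hf a) ih.2⟩

theorem sum_T (T : List PD) (σ : Gam) : (T.map fun P => ch P.del σ * ch P.D σ).sum =
    (T.map fun P => ch P.del σ).sum + FF T σ := by
  unfold FF
  induction T with
  | nil => simp
  | cons P T ih =>
    simp only [List.map_cons, List.sum_cons]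
    rw [ih, ← P.ch_add, mul_add]
    have : ∀ a : ZMod 2, a * a = a := by decide
    rw [this]
    ring

theorem sum_S (S : List ND) (σ : Gam) : (S.map fun N => ch N.b σ * ch N.b σ).sum =
    (S.map fun N => ch N.b σ).sum := by
  congr 1
  apply List.map_congr_left
  intro N _
  have : ∀ a : ZMod 2, a * a = a := by decide
  exact this _

/-- The main lemma. -/
theorem mainLemma (hK : K ≤ Q2) (hfin : FinE K) {ι : Type} [Infinite ι] (T : ι → List PD)
    (S : ι → List ND) (hT : ∀ i, ∀ P ∈ T i, √(P.D : ℝ) ∈ K) (hS : ∀ i, ∀ N ∈ S i, √(N.b : ℝ) ∈ K)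
    (hsq : ∀ i, IsSquare (((T i).map PD.del).prod * ((S i).map ND.b).prod)) :
    ∃ i j, i ≠ j ∧ ∀ σ, FF (T i) σ = FF (T j) σ := by
  obtain ⟨i, j, hij, y, hy, hyy⟩ := pigeon hfin (fun i => uu (T i) (S i))
    (fun i => uu_pos (T i) (S i) (hT i) (hS i) (hsq i)) (fun i => uu_ne _ _) (fun i => uu_int _ _)
  refine ⟨i, j, hij, fun σ => ?_⟩
  have hc : ∀ i σ, ((T i).map fun P => ch P.del σ).sum + ((S i).map fun N => ch N.b σ).sum = 0 := by
    intro i σ
    obtain ⟨s, hs⟩ := hsq i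
    have h1 := ch_prod (T i) PD.del PD.del_ne σ
    have h2 := ch_prod (S i) ND.b ND.b_ne σ
    rw [← h1.1, ← h2.1, ← ch_mul h1.2 h2.2, hs]
    apply ch_mul_self
    rintro rfl
    exact mul_ne_zero h1.2 h2.2 hs
  have hprod : ∀ (T : List PD) (S : List ND),
      (((((T.map PD.atom) ++ (S.map ND.atom)).map Atom.v).prod : Q2) : ℝ) = uu T S := by
    intro T S
    rw [List.map_append, List.prod_append, MulMemClass.coe_mul]
    unfold uu
    congr 1
    · induction T with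
      | nil => rfl
      | cons P T ih =>
        simp only [List.map_cons, List.prod_cons, MulMemClass.coe_mul]
        rw [ih]
        congr 1
    · induction S with
      | nil => rfl
      | cons N S ih =>
        simp only [List.map_cons, List.prod_cons, MulMemClass.coe_mul]
        rw [ih]
        congr 1
  have h := criterion (((T i).map PD.atom ++ (S i).map ND.atom) ++
    ((T j).map PD.atom ++ (S j).map ND.atom)) ⟨y, hK hy⟩ (by
      apply Subtype.ext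
      rw [List.map_append, List.prod_append, MulMemClass.coe_mul, hprod, hprod]
      exact hyy) (by
      intro σ
      simp only [List.map_append, List.sum_append, List.map_map]
      have e1 := hc i σ
      have e2 := hc j σ
      calc _ = (((T i).map fun P => ch P.del σ).sum + ((S i).map fun N => ch N.b σ).sum) +
            (((T j).map fun P => ch P.del σ).sum + ((S j).map fun N => ch N.b σ).sum) := rfl
        _ = 0 := by rw [e1, e2, add_zero]) σ
  simp only [List.map_append, List.sum_append, List.map_map] at h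
  have h' : (((T i).map fun P => ch P.del σ * ch P.D σ).sum +
      ((S i).map fun N => ch N.b σ * ch N.b σ).sum) +
      (((T j).map fun P => ch P.del σ * ch P.D σ).sum +
      ((S j).map fun N => ch N.b σ * ch N.b σ).sum) = 0 := h
  rw [sum_T, sum_T, sum_S, sum_S] at h'
  have e1 := hc i σ
  have e2 := hc j σ
  have h4 : FF (T i) σ + FF (T j) σ = 0 := by
    calc FF (T i) σ + FF (T j) σ = (((T i).map fun P => ch P.del σ).sum +
          ((S i).map fun N => ch N.b σ).sum) + (((T j).map fun P => ch P.del σ).sum +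
          ((S j).map fun N => ch N.b σ).sum) + (FF (T i) σ + FF (T j) σ) := by
          rw [e1, e2]
          ring
      _ = 0 := by
        rw [← h']
        ring
  calc FF (T i) σ = FF (T i) σ + (FF (T j) σ + FF (T j) σ) := by rw [zmod2_add_self, add_zero]
    _ = FF (T j) σ := by rw [← add_assoc, h4, zero_add]

end Pool.Agent.TPU
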